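import Mathlib

/-!
# Basic sets of diffeomorphisms and box dimension: definitions

Definitions used in the statements about problem MP_e6529f_an.
-/

namespace Pool.Agent.MPe6529f

open Filter Topology Set
open scoped ContDiff

/-- The least number of sets of diameter at most `δ` needed to cover `K`. -/
noncomputable def coverNum {X : Type*} [PseudoEMetricSpace X] (δ : ℝ) (K : Set X) : ℕ :=
  sInf {n : ℕ | ∃ c : Fin n → Set X,
    (∀ i, Metric.ediam (c i) ≤ ENNReal.ofReal δ) ∧ K ⊆ ⋃ i, c i}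

/-- Lower box dimension: liminf as `δ → 0+` of `log N_δ(K) / (- log δ)`. -/
noncomputable def lowerBoxDim {X : Type*} [PseudoEMetricSpace X] (K : Set X) : EReal :=
  liminf (fun δ : ℝ => ((Real.log (coverNum δ K) / (- Real.log δ) : ℝ) : EReal)) (𝓝[>] 0)

/-- Upper box dimension: limsup as `δ → 0+` of `log N_δ(K) / (- log δ)`. -/
noncomputable def upperBoxDim {X : Type*} [PseudoEMetricSpace X] (K : Set X) : EReal :=
  limsup (fun δ : ℝ => ((Real.log (coverNum δ K) / (- Real.log δ) : ℝ) : EReal)) (𝓝[>] 0)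

/-- A smooth diffeomorphism of a real normed space onto itself (a bijection which is `C^∞`
together with its inverse). -/
def IsSmoothDiffeo {E : Type*} [NormedAddCommGroup E] [NormedSpace ℝ E]
    (f : Equiv.Perm E) : Prop :=
  ContDiff ℝ ∞ f ∧ ContDiff ℝ ∞ f.symm

/-- Hyperbolicity of an invariant set `Λ` of a diffeomorphism `f` of a real normed space `E`.
The splitting `T_x E = E^s(x) ⊕ E^u(x)` is given by the projection `P x` onto `E^s(x)` along
`E^u(x)`; it is continuous on `Λ`, `Df`-invariant, the derivatives of the iterates `f^n`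
contract `E^s` exponentially, those of the iterates `f^(-n)` contract `E^u` exponentially,
uniformly on `Λ`. -/
def IsHyperbolicOn {E : Type*} [NormedAddCommGroup E] [NormedSpace ℝ E]
    (f : Equiv.Perm E) (Λ : Set E) : Prop :=
  ∃ P : E → (E →L[ℝ] E), ContinuousOn P Λ ∧
    (∀ x ∈ Λ, (P x).comp (P x) = P x) ∧
    (∀ x ∈ Λ, (fderiv ℝ f x).comp (P x) = (P (f x)).comp (fderiv ℝ f x)) ∧
    ∃ C lam : ℝ, 0 < C ∧ 0 < lam ∧ lam < 1 ∧ ∀ x ∈ Λ, ∀ n : ℕ, ∀ v : E,
      ‖fderiv ℝ (f^[n]) x (P x v)‖ ≤ C * lam ^ n * ‖P x v‖ ∧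
      ‖fderiv ℝ (f.symm^[n]) x (v - P x v)‖ ≤ C * lam ^ n * ‖v - P x v‖

/-- `Λ` is a basic set of the diffeomorphism `f`: nonempty, compact, invariant, hyperbolic,
locally maximal, and `f` restricted to `Λ` is topologically transitive. -/
structure IsBasicSet {E : Type*} [NormedAddCommGroup E] [NormedSpace ℝ E]
    (f : Equiv.Perm E) (Λ : Set E) : Prop where
  nonempty : Λ.Nonempty
  compact : IsCompact Λ
  invariant : f '' Λ = Λ
  hyperbolic : IsHyperbolicOn f Λ
  locallyMaximal : ∃ U : Set E, IsOpen U ∧ Λ ⊆ U ∧ Λ = ⋂ n : ℤ, (f ^ n : Equiv.Perm E) '' U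
  transitive : ∀ V W : Set E, IsOpen V → IsOpen W → (V ∩ Λ).Nonempty → (W ∩ Λ).Nonempty →
    ∃ n : ℕ, (f^[n] '' (V ∩ Λ) ∩ (W ∩ Λ)).Nonempty

/-- The local stable manifold of size `ε` of `x`: the points whose forward orbit stays
`ε`-close to the forward orbit of `x` and is asymptotic to it. -/
def localStable {X : Type*} [PseudoMetricSpace X] (f : X → X) (ε : ℝ) (x : X) : Set X :=
  {y | (∀ n : ℕ, dist (f^[n] x) (f^[n] y) ≤ ε) ∧
    Tendsto (fun n : ℕ => dist (f^[n] x) (f^[n] y)) atTop (𝓝 0)}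

end Pool.Agent.MPe6529f
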