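import Mathlib

/-!
# Digit expansions `∑ w k * r ^ k`
-/

namespace Pool.Agent.MPe6529f

open Filter Topology Set

/-- the sum of the digit series -/
noncomputable def ser (r : ℝ) (w : ℕ → ℝ) : ℝ := ∑' k, w k * r ^ k

/-- prepend a symbol -/
def cons {α : Type*} (a : α) (p : ℕ → α) : ℕ → α
  | 0 => a
  | (k + 1) => p k

/-- drop the first symbol -/
def tl {α : Type*} (p : ℕ → α) : ℕ → α := fun k => p (k + 1)

@[simp] lemma cons_zero {α : Type*} (a : α) (p : ℕ → α) : cons a p 0 = a := rfl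
@[simp] lemma cons_succ {α : Type*} (a : α) (p : ℕ → α) (k : ℕ) : cons a p (k + 1) = p k := rfl
@[simp] lemma tl_cons {α : Type*} (a : α) (p : ℕ → α) : tl (cons a p) = p := rfl
@[simp] lemma cons_tl {α : Type*} (p : ℕ → α) : cons (p 0) (tl p) = p := by
  funext k; cases k <;> rfl
lemma tl_apply {α : Type*} (p : ℕ → α) (k : ℕ) : tl p k = p (k + 1) := rfl

section
variable {r B : ℝ} {w : ℕ → ℝ}

lemma summable_ser (hr0 : 0 ≤ r) (hr : r < 1) (hw : ∀ k, |w k| ≤ B) :
    Summable (fun k => w k * r ^ k) := by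
  have hg : Summable (fun k => B * r ^ k) := (summable_geometric_of_lt_one hr0 hr).mul_left B
  refine Summable.of_norm_bounded hg ?_
  intro k
  rw [norm_mul, Real.norm_eq_abs, Real.norm_eq_abs, abs_of_nonneg (pow_nonneg hr0 k)]
  exact mul_le_mul_of_nonneg_right (hw k) (pow_nonneg hr0 k)

lemma ser_succ (hr0 : 0 ≤ r) (hr : r < 1) (hw : ∀ k, |w k| ≤ B) :
    ser r w = w 0 + r * ser r (tl w) := by
  have hs := summable_ser hr0 hr hw
  unfold ser
  rw [hs.tsum_eq_zero_add, ← tsum_mul_left]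
  simp only [pow_zero, mul_one, add_right_inj]
  refine tsum_congr fun k => ?_
  rw [pow_succ, tl_apply]; ring

lemma ser_split (hr0 : 0 ≤ r) (hr : r < 1) (hw : ∀ k, |w k| ≤ B) (m : ℕ) :
    ser r w = (∑ k ∈ Finset.range m, w k * r ^ k) + r ^ m * ser r (fun k => w (k + m)) := by
  have hs := summable_ser hr0 hr hw
  unfold ser
  rw [← hs.sum_add_tsum_nat_add m, ← tsum_mul_left]
  congr 1
  refine tsum_congr fun k => ?_
  rw [pow_add]; ring

lemma abs_ser_le (hr0 : 0 ≤ r) (hr : r ≤ 1 / 2) (hw : ∀ k, |w k| ≤ B) :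
    |ser r w| ≤ 2 * B := by
  have hr1 : r < 1 := by linarith
  have hB : 0 ≤ B := (abs_nonneg _).trans (hw 0)
  have hg : Summable (fun k => B * r ^ k) := (summable_geometric_of_lt_one hr0 hr1).mul_left B
  have h1 : ‖∑' k, w k * r ^ k‖ ≤ ∑' k, B * r ^ k := by
    refine tsum_of_norm_bounded hg.hasSum ?_
    intro k
    rw [norm_mul, Real.norm_eq_abs, Real.norm_eq_abs, abs_of_nonneg (pow_nonneg hr0 k)]
    exact mul_le_mul_of_nonneg_right (hw k) (pow_nonneg hr0 k)
  rw [tsum_mul_left, tsum_geometric_of_lt_one hr0 hr1] at h1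
  have h2 : (1 - r)⁻¹ ≤ 2 := by
    rw [inv_le_comm₀ (by linarith) (by norm_num)]
    linarith
  calc |ser r w| ≤ B * (1 - r)⁻¹ := h1
    _ ≤ B * 2 := mul_le_mul_of_nonneg_left h2 hB
    _ = 2 * B := by ring

lemma ser_nonneg (hr0 : 0 ≤ r) (hw : ∀ k, 0 ≤ w k) : 0 ≤ ser r w :=
  tsum_nonneg fun k => mul_nonneg (hw k) (pow_nonneg hr0 k)

lemma abs_ser_sub_le (hr0 : 0 ≤ r) (hr : r ≤ 1 / 2) (hw : ∀ k, |w k| ≤ B) (m : ℕ) :
    |ser r w - ∑ k ∈ Finset.range m, w k * r ^ k| ≤ 2 * B * r ^ m := by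
  rw [ser_split hr0 (by linarith) hw m, add_sub_cancel_left, abs_mul,
    abs_of_nonneg (pow_nonneg hr0 m), mul_comm]
  exact mul_le_mul_of_nonneg_right (abs_ser_le hr0 hr (fun k => hw _)) (pow_nonneg hr0 m)

/-- if two digit sequences agree on the first `m` places, the sums differ by at most
`4 B r ^ m`. -/
lemma abs_ser_sub_ser_le {w' : ℕ → ℝ} (hr0 : 0 ≤ r) (hr : r ≤ 1 / 2) (hw : ∀ k, |w k| ≤ B)
    (hw' : ∀ k, |w' k| ≤ B) (m : ℕ) (h : ∀ k < m, w k = w' k) :
    |ser r w - ser r w'| ≤ 4 * B * r ^ m := by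
  have h1 := abs_ser_sub_le hr0 hr hw m
  have h2 := abs_ser_sub_le hr0 hr hw' m
  have h3 : (∑ k ∈ Finset.range m, w k * r ^ k) = ∑ k ∈ Finset.range m, w' k * r ^ k :=
    Finset.sum_congr rfl fun k hk => by rw [h k (Finset.mem_range.mp hk)]
  rw [abs_le] at *
  constructor <;> · rw [h3] at h1; linarith [h1.1, h1.2, h2.1, h2.2]

end

/-- continuity in the digit sequence -/
lemma continuous_ser {α : Type*} [TopologicalSpace α] [DiscreteTopology α] {r B : ℝ}
    (φ : α → ℝ) (hr0 : 0 ≤ r) (hr : r < 1) (hφ : ∀ a, |φ a| ≤ B) :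
    Continuous (fun p : ℕ → α => ser r (fun k => φ (p k))) := by
  have hg : Summable (fun k => B * r ^ k) := (summable_geometric_of_lt_one hr0 hr).mul_left B
  unfold ser
  refine continuous_tsum (u := fun k => B * r ^ k) ?_ hg ?_
  · intro k
    have : Continuous (fun p : ℕ → α => φ (p k)) :=
      (continuous_of_discreteTopology (f := φ)).comp (continuous_apply k)
    exact this.mul continuous_const
  · intro k p
    rw [norm_mul, Real.norm_eq_abs, Real.norm_eq_abs, abs_of_nonneg (pow_nonneg hr0 k)]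
    exact mul_le_mul_of_nonneg_right (hφ _) (pow_nonneg hr0 k)

end Pool.Agent.MPe6529f
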