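import Mathlib
import Pool.Agent.Lib.MP_e6529f_an.Defs
import Pool.Agent.Lib.MP_e6529f_an.Series

/-!
# The diffeomorphism
-/

namespace Pool.Agent.MPe6529f

open Filter Topology Set
open scoped ContDiff

/-- Euclidean space of dimension five -/
abbrev E5 := EuclideanSpace ℝ (Fin 5)

@[irreducible] def NN : ℕ := 1024
lemma NN_eq : NN = 1024 := by unfold NN; rfl

lemma NN_pos : 0 < NN := by rw [NN_eq]; norm_num
lemma NNr_ge : (1024 : ℝ) ≤ (NN : ℝ) := by rw [NN_eq]; norm_num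
lemma NNr_pos : (0 : ℝ) < (NN : ℝ) := by have := NNr_ge; linarith

instance : NeZero NN := ⟨NN_pos.ne'⟩

/-- letters -/
abbrev Letter := (Fin NN × Fin NN × Fin NN) ⊕ Fin NN

lemma card_letter : Fintype.card Letter = NN ^ 3 + NN := by
  simp [Letter, Fintype.card_sum, Fintype.card_prod, Fintype.card_fin]; ring

lemma card_letter_le : Fintype.card Letter ≤ NN ^ 4 := by
  rw [card_letter]
  have h := NN_eq
  have h1 : 2 ≤ NN := by omega
  calc NN ^ 3 + NN ≤ NN ^ 3 + NN ^ 3 := by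
        have : NN ≤ NN ^ 3 := Nat.le_self_pow (by norm_num) NN
        omega
    _ = 2 * NN ^ 3 := by ring
    _ ≤ NN * NN ^ 3 := Nat.mul_le_mul_right _ h1
    _ = NN ^ 4 := by ring

/-- the expansion constant -/
noncomputable def Gam : ℝ := (NN : ℝ) ^ 100

/-- the Liouville number `∑ NN ^ (- j!)` -/
noncomputable def cc : ℝ := liouvilleNumber (NN : ℝ)

lemma Gam_pos : 0 < Gam := pow_pos NNr_pos _

lemma Gam_ge : (NN : ℝ) ^ 5 ≤ Gam := pow_le_pow_right₀ (by have := NNr_ge; linarith) (by norm_num)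

lemma Gam_ge' : 1024 * (NN : ℝ) ^ 4 ≤ Gam := by
  refine le_trans ?_ Gam_ge
  rw [pow_succ (NN : ℝ) 4, mul_comm]
  exact mul_le_mul_of_nonneg_left NNr_ge (pow_nonneg NNr_pos.le _)

lemma Gam_ge_NN2 : (NN : ℝ) ^ 2 ≤ Gam :=
  pow_le_pow_right₀ (by have := NNr_ge; linarith) (by norm_num)

noncomputable def rN : ℝ := (NN : ℝ)⁻¹
noncomputable def rM : ℝ := ((NN : ℝ) ^ 2)⁻¹
noncomputable def rG : ℝ := Gam⁻¹

lemma rN_pos : 0 < rN := inv_pos.mpr NNr_pos
lemma rM_pos : 0 < rM := inv_pos.mpr (pow_pos NNr_pos _)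
lemma rG_pos : 0 < rG := inv_pos.mpr Gam_pos

lemma rN_le : rN ≤ 1 / 1024 := by
  unfold rN; rw [inv_eq_one_div]
  exact one_div_le_one_div_of_le (by norm_num) NNr_ge

lemma rM_eq : rM = rN ^ 2 := by unfold rM rN; rw [inv_pow]

lemma rM_le_rN : rM ≤ rN := by
  rw [rM_eq, sq]
  have := rN_le; have := rN_pos
  nlinarith

lemma rG_le_rM : rG ≤ rM := by
  unfold rG rM
  exact inv_anti₀ (pow_pos NNr_pos _) Gam_ge_NN2

lemma rG_le_rN : rG ≤ rN := rG_le_rM.trans rM_le_rN

lemma rN_half : rN ≤ 1 / 2 := rN_le.trans (by norm_num)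
lemma rM_half : rM ≤ 1 / 2 := rM_le_rN.trans rN_half
lemma rG_half : rG ≤ 1 / 2 := rG_le_rN.trans rN_half

lemma rG_mul_Gam : rG * Gam = 1 := inv_mul_cancel₀ Gam_pos.ne'
lemma Gam_mul_rG : Gam * rG = 1 := mul_inv_cancel₀ Gam_pos.ne'
lemma rN_mul_NN : rN * (NN : ℝ) = 1 := inv_mul_cancel₀ NNr_pos.ne'
lemma NN_mul_rN : (NN : ℝ) * rN = 1 := mul_inv_cancel₀ NNr_pos.ne'
lemma rM_mul_NN : rM * (NN : ℝ) ^ 2 = 1 := inv_mul_cancel₀ (pow_pos NNr_pos _).ne'
lemma NN_mul_rM : (NN : ℝ) ^ 2 * rM = 1 := mul_inv_cancel₀ (pow_pos NNr_pos _).ne'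

lemma one_lt_NNr : (1 : ℝ) < (NN : ℝ) := by have := NNr_ge; linarith

lemma rN_pow (k : ℕ) : rN ^ k = 1 / (NN : ℝ) ^ k := by
  unfold rN; rw [inv_pow, one_div]

lemma cc_nonneg : 0 ≤ cc := by
  unfold cc liouvilleNumber
  exact tsum_nonneg fun i => by positivity

/-- partial sums of `cc` -/
noncomputable def cp (k : ℕ) : ℝ := LiouvilleNumber.partialSum (NN : ℝ) k
/-- remainders of `cc` -/
noncomputable def cr (k : ℕ) : ℝ := LiouvilleNumber.remainder (NN : ℝ) k

lemma cc_eq (k : ℕ) : cc = cp k + cr k :=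
  (LiouvilleNumber.partialSum_add_remainder one_lt_NNr k).symm

lemma cr_pos (k : ℕ) : 0 < cr k := LiouvilleNumber.remainder_pos one_lt_NNr k

lemma cr_le (k : ℕ) : cr k ≤ 2 * rN ^ ((k + 1).factorial) := by
  have h := (LiouvilleNumber.remainder_lt' k one_lt_NNr).le
  refine h.trans ?_
  rw [rN_pow]
  have h2 : (1 - 1 / (NN : ℝ))⁻¹ ≤ 2 :=
    sub_one_div_inv_le_two (by have := NNr_ge; linarith)
  exact mul_le_mul_of_nonneg_right h2 (by positivity)

lemma cp_succ (k : ℕ) : cp (k + 1) = cp k + rN ^ ((k + 1).factorial) := by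
  unfold cp
  rw [LiouvilleNumber.partialSum_succ, rN_pow]

lemma cp_nonneg (k : ℕ) : 0 ≤ cp k := by
  unfold cp LiouvilleNumber.partialSum
  exact Finset.sum_nonneg fun i _ => by positivity

lemma cc_le : cc ≤ 1 / 4 := by
  have h1 : cc = cp 0 + cr 0 := cc_eq 0
  have h2 : cp 0 = rN := by
    unfold cp LiouvilleNumber.partialSum rN
    simp
  have h3 := cr_le 0
  have h4 := rN_le
  simp only [zero_add, Nat.factorial_one, pow_one] at h3
  linarith

lemma cp_le (k : ℕ) : cp k ≤ 1 / 4 := by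
  have h1 := cc_eq k
  have h2 := (cr_pos k).le
  have h3 := cc_le
  linarith

/-- `cp k * NN ^ (k!)` is a natural number. -/
lemma cp_rat (k : ℕ) : ∃ p : ℕ, cp k * (NN : ℝ) ^ (k.factorial) = p := by
  obtain ⟨p, hp⟩ := LiouvilleNumber.partialSum_eq_rat NN_pos k
  refine ⟨p, ?_⟩
  unfold cp
  rw [hp]
  push_cast
  exact div_mul_cancel₀ _ (pow_pos NNr_pos _).ne'

/-! ### digits -/

noncomputable def ee (a : Letter) : ℝ := ((Fintype.equivFin Letter a : ℕ) : ℝ)

noncomputable def xi : Letter → ℝ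
  | Sum.inl (u, v, _) => (u : ℕ) + cc * (v : ℕ)
  | Sum.inr _ => 0

noncomputable def et : Letter → ℝ
  | Sum.inl _ => 0
  | Sum.inr h => (h : ℕ)

noncomputable def ze : Letter → ℝ
  | Sum.inl (_, _, z) => (z : ℕ)
  | Sum.inr _ => 0

lemma fin_le (u : Fin NN) : ((u : ℕ) : ℝ) ≤ NN := by
  exact_mod_cast u.2.le

lemma abs_xi_le (a : Letter) : |xi a| ≤ 2 * NN := by
  rcases a with ⟨u, v, z⟩ | h
  · simp only [xi]
    have h1 := fin_le u
    have h2 := fin_le v
    have h3 := cc_le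
    have h4 := cc_nonneg
    have h5 : (0 : ℝ) ≤ (u : ℕ) := Nat.cast_nonneg _
    have h6 : (0 : ℝ) ≤ (v : ℕ) := Nat.cast_nonneg _
    rw [abs_of_nonneg (by positivity)]
    nlinarith
  · simp only [xi, abs_zero]
    have := NNr_pos; linarith

lemma abs_et_le (a : Letter) : |et a| ≤ 2 * NN := by
  rcases a with a | h
  · simp only [et, abs_zero]
    have := NNr_pos; linarith
  · simp only [et]
    have h1 := fin_le h
    have h5 : (0 : ℝ) ≤ (h : ℕ) := Nat.cast_nonneg _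
    rw [abs_of_nonneg h5]
    have := NNr_pos; linarith

lemma abs_ze_le (a : Letter) : |ze a| ≤ 2 * NN := by
  rcases a with ⟨u, v, z⟩ | h
  · simp only [ze]
    have h1 := fin_le z
    have h5 : (0 : ℝ) ≤ (z : ℕ) := Nat.cast_nonneg _
    rw [abs_of_nonneg h5]
    have := NNr_pos; linarith
  · simp only [ze, abs_zero]
    have := NNr_pos; linarith

lemma ee_nonneg (a : Letter) : 0 ≤ ee a := Nat.cast_nonneg _

lemma ee_le (a : Letter) : ee a ≤ (NN : ℝ) ^ 4 := by
  unfold ee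
  have h1 : (Fintype.equivFin Letter a : ℕ) ≤ NN ^ 4 :=
    (Fintype.equivFin Letter a).2.le.trans card_letter_le
  exact_mod_cast h1

lemma abs_ee_le (a : Letter) : |ee a| ≤ (NN : ℝ) ^ 4 := by
  rw [abs_of_nonneg (ee_nonneg a)]; exact ee_le a

lemma ee_sep {a b : Letter} (h : a ≠ b) : 1 ≤ |ee a - ee b| := by
  unfold ee
  have h1 : (Fintype.equivFin Letter a : ℕ) ≠ (Fintype.equivFin Letter b : ℕ) := by
    intro h2
    exact h ((Fintype.equivFin Letter).injective (Fin.ext h2))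
  have h2 : ((Fintype.equivFin Letter a : ℕ) : ℤ) - ((Fintype.equivFin Letter b : ℕ) : ℤ) ≠ 0 := by
    intro h3; apply h1; exact_mod_cast sub_eq_zero.mp h3
  have h3 := Int.one_le_abs h2
  have h4 : ((1 : ℤ) : ℝ) ≤ ((|((Fintype.equivFin Letter a : ℕ) : ℤ) -
    ((Fintype.equivFin Letter b : ℕ) : ℤ)| : ℤ) : ℝ) := by exact_mod_cast h3
  push_cast at h4
  exact h4

/-! ### smooth locally constant interpolation -/

noncomputable def bmp (s : ℝ) : ℝ :=
  Real.smoothTransition (3 / 2 - 2 * s) * Real.smoothTransition (3 / 2 + 2 * s)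

lemma bmp_one {s : ℝ} (h : |s| ≤ 1 / 4) : bmp s = 1 := by
  rw [abs_le] at h
  unfold bmp
  rw [Real.smoothTransition.one_of_one_le (by linarith),
    Real.smoothTransition.one_of_one_le (by linarith), one_mul]

lemma bmp_zero {s : ℝ} (h : 3 / 4 ≤ |s|) : bmp s = 0 := by
  unfold bmp
  rcases le_abs.mp h with h | h
  · rw [Real.smoothTransition.zero_of_nonpos (by linarith), zero_mul]
  · rw [Real.smoothTransition.zero_of_nonpos (x := 3 / 2 + 2 * s) (by linarith), mul_zero]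

lemma contDiff_bmp : ContDiff ℝ ∞ bmp := by
  unfold bmp
  exact (Real.smoothTransition.contDiff.comp (contDiff_const.sub (contDiff_const.mul contDiff_id))).mul
    (Real.smoothTransition.contDiff.comp (contDiff_const.add (contDiff_const.mul contDiff_id)))

/-- smooth function on the line with value `φ a` near `ee a` -/
noncomputable def intp (φ : Letter → ℝ) (t : ℝ) : ℝ := ∑ a, bmp (t - ee a) * φ a

lemma intp_eq (φ : Letter → ℝ) {t : ℝ} {a : Letter} (h : |t - ee a| ≤ 1 / 4) :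
    intp φ t = φ a := by
  unfold intp
  rw [Finset.sum_eq_single a]
  · rw [bmp_one h, one_mul]
  · intro b _ hb
    rw [bmp_zero, zero_mul]
    have h1 := ee_sep hb
    have h2 : |ee b - ee a| ≤ |t - ee a| + |t - ee b| := by
      have : ee b - ee a = (t - ee a) - (t - ee b) := by ring
      rw [this]
      exact abs_sub _ _
    linarith
  · intro h1; exact absurd (Finset.mem_univ a) h1

lemma contDiff_intp (φ : Letter → ℝ) : ContDiff ℝ ∞ (intp φ) := by
  unfold intp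
  refine ContDiff.sum fun a _ => ?_
  exact (contDiff_bmp.comp (contDiff_id.sub contDiff_const)).mul contDiff_const

/-! ### the map -/

noncomputable def fwd (P : E5) : E5 :=
  !₂[Gam * P 0 - Gam * intp ee (rG * P 4 + intp ee (P 0)),
    rN * P 1 + intp xi (P 0), rN * P 2 + intp et (P 0), rM * P 3 + intp ze (P 0),
    rG * P 4 + intp ee (P 0)]

noncomputable def bwd (Q : E5) : E5 :=
  !₂[rG * Q 0 + intp ee (Q 4),
    NN * (Q 1 - intp xi (rG * Q 0 + intp ee (Q 4))),
    NN * (Q 2 - intp et (rG * Q 0 + intp ee (Q 4))),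
    NN ^ 2 * (Q 3 - intp ze (rG * Q 0 + intp ee (Q 4))),
    Gam * (Q 4 - intp ee (rG * Q 0 + intp ee (Q 4)))]

lemma bwd_fwd (P : E5) : bwd (fwd P) = P := by
  have h0 : rG * (Gam * P 0 - Gam * intp ee (rG * P 4 + intp ee (P 0))) +
      intp ee (rG * P 4 + intp ee (P 0)) = P 0 := by
    have := rG_mul_Gam
    rw [mul_sub, ← mul_assoc, ← mul_assoc, this]; ring
  ext i
  fin_cases i
  · simpa [bwd, fwd] using h0
  · simp only [bwd, fwd]
    simp [h0]
    rw [← mul_assoc, NN_mul_rN, one_mul]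
  · simp only [bwd, fwd]
    simp [h0]
    rw [← mul_assoc, NN_mul_rN, one_mul]
  · simp only [bwd, fwd]
    simp [h0]
    rw [← mul_assoc, NN_mul_rM, one_mul]
  · simp only [bwd, fwd]
    simp [h0]
    rw [← mul_assoc, Gam_mul_rG, one_mul]

lemma fwd_bwd (Q : E5) : fwd (bwd Q) = Q := by
  have h4 : rG * (Gam * (Q 4 - intp ee (rG * Q 0 + intp ee (Q 4)))) +
      intp ee (rG * Q 0 + intp ee (Q 4)) = Q 4 := by
    rw [← mul_assoc, rG_mul_Gam]; ring
  ext i
  fin_cases i
  · simp only [bwd, fwd]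
    simp [h4]
    rw [mul_add, ← mul_assoc, Gam_mul_rG]; ring
  · simp only [bwd, fwd]
    simp
    rw [← mul_assoc, rN_mul_NN]; ring
  · simp only [bwd, fwd]
    simp
    rw [← mul_assoc, rN_mul_NN]; ring
  · simp only [bwd, fwd]
    simp
    rw [← mul_assoc, rM_mul_NN]; ring
  · simpa [bwd, fwd] using h4

/-- the diffeomorphism -/
noncomputable def ff : Equiv.Perm E5 where
  toFun := fwd
  invFun := bwd
  left_inv := bwd_fwd
  right_inv := fwd_bwd

lemma contDiff_fwd : ContDiff ℝ ∞ fwd := by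
  rw [contDiff_euclidean]
  have hc : ∀ i : Fin 5, ContDiff ℝ ∞ (fun P : E5 => P i) := fun i => contDiff_euclidean.mp contDiff_id i
  have hφ : ∀ (φ : Letter → ℝ) {g : E5 → ℝ}, ContDiff ℝ ∞ g → ContDiff ℝ ∞ (fun P => intp φ (g P)) :=
    fun φ g hg => (contDiff_intp φ).comp hg
  intro i
  fin_cases i
  · simp only [fwd]
    simp
    exact (contDiff_const.mul (hc 0)).sub
      (contDiff_const.mul (hφ ee ((contDiff_const.mul (hc 4)).add (hφ ee (hc 0)))))
  · simp only [fwd]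
    simp
    exact (contDiff_const.mul (hc 1)).add (hφ xi (hc 0))
  · simp only [fwd]
    simp
    exact (contDiff_const.mul (hc 2)).add (hφ et (hc 0))
  · simp only [fwd]
    simp
    exact (contDiff_const.mul (hc 3)).add (hφ ze (hc 0))
  · simp only [fwd]
    simp
    exact (contDiff_const.mul (hc 4)).add (hφ ee (hc 0))

lemma contDiff_bwd : ContDiff ℝ ∞ bwd := by
  rw [contDiff_euclidean]
  have hc : ∀ i : Fin 5, ContDiff ℝ ∞ (fun P : E5 => P i) := fun i => contDiff_euclidean.mp contDiff_id i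
  have hφ : ∀ (φ : Letter → ℝ) {g : E5 → ℝ}, ContDiff ℝ ∞ g → ContDiff ℝ ∞ (fun P => intp φ (g P)) :=
    fun φ g hg => (contDiff_intp φ).comp hg
  have ht : ContDiff ℝ ∞ (fun Q : E5 => rG * Q 0 + intp ee (Q 4)) :=
    (contDiff_const.mul (hc 0)).add (hφ ee (hc 4))
  intro i
  fin_cases i
  · simp only [bwd]
    simp
    exact ht
  · simp only [bwd]
    simp
    exact contDiff_const.mul ((hc 1).sub (hφ xi ht))
  · simp only [bwd]
    simp
    exact contDiff_const.mul ((hc 2).sub (hφ et ht))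
  · simp only [bwd]
    simp
    exact contDiff_const.mul ((hc 3).sub (hφ ze ht))
  · simp only [bwd]
    simp
    exact contDiff_const.mul ((hc 4).sub (hφ ee ht))

lemma isSmoothDiffeo_ff : IsSmoothDiffeo ff := ⟨contDiff_fwd, contDiff_bwd⟩

end Pool.Agent.MPe6529f
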