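import Mathlib
import Pool.Agent.Lib.MP_e6529f_an.System

/-!
# The basic set
-/

namespace Pool.Agent.MPe6529f

open Filter Topology Set
open scoped ContDiff

/-! ### coordinates and distance -/

lemma abs_coord_le_dist (x y : E5) (i : Fin 5) : |x i - y i| ≤ dist x y := by
  rw [EuclideanSpace.dist_eq]
  refine Real.abs_le_sqrt ?_
  have h := Finset.single_le_sum (f := fun j => dist (x j) (y j) ^ 2)
    (fun j _ => sq_nonneg _) (Finset.mem_univ i)
  simpa [Real.dist_eq, sq_abs] using h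

lemma dist_le_of_coord {x y : E5} {d : ℝ} (hd : 0 ≤ d) (h : ∀ i, |x i - y i| ≤ d) :
    dist x y ≤ 3 * d := by
  rw [EuclideanSpace.dist_eq]
  refine Real.sqrt_le_iff.mpr ⟨by positivity, ?_⟩
  have h1 : ∑ i, dist (x i) (y i) ^ 2 ≤ ∑ _i : Fin 5, d ^ 2 := by
    refine Finset.sum_le_sum fun i _ => ?_
    rw [Real.dist_eq, sq_abs]
    have := h i
    rw [← sq_abs]
    exact pow_le_pow_left₀ (abs_nonneg _) this 2
  refine h1.trans ?_
  simp
  nlinarith [sq_nonneg d]

/-! ### the invariant set -/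

noncomputable def pt (p q : ℕ → Letter) : E5 :=
  !₂[ser rG (fun k => ee (q k)), ser rN (fun k => xi (p k)), ser rN (fun k => et (p k)),
    ser rM (fun k => ze (p k)), ser rG (fun k => ee (p k))]

/-- the basic set -/
noncomputable def Lam : Set E5 := Set.range (fun x : (ℕ → Letter) × (ℕ → Letter) => pt x.1 x.2)

lemma pt_mem (p q : ℕ → Letter) : pt p q ∈ Lam := ⟨(p, q), rfl⟩

@[simp] lemma pt_0 (p q : ℕ → Letter) : pt p q 0 = ser rG (fun k => ee (q k)) := rfl
@[simp] lemma pt_1 (p q : ℕ → Letter) : pt p q 1 = ser rN (fun k => xi (p k)) := rfl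
@[simp] lemma pt_2 (p q : ℕ → Letter) : pt p q 2 = ser rN (fun k => et (p k)) := rfl
@[simp] lemma pt_3 (p q : ℕ → Letter) : pt p q 3 = ser rM (fun k => ze (p k)) := rfl
@[simp] lemma pt_4 (p q : ℕ → Letter) : pt p q 4 = ser rG (fun k => ee (p k)) := rfl

lemma rN_lt_one : rN < 1 := by have := rN_half; linarith
lemma rM_lt_one : rM < 1 := by have := rM_half; linarith
lemma rG_lt_one : rG < 1 := by have := rG_half; linarith

lemma ser_ee_le (q : ℕ → Letter) : |ser rG (fun k => ee (q k))| ≤ 2 * (NN : ℝ) ^ 4 :=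
  abs_ser_le rG_pos.le rG_half (fun k => abs_ee_le _)

lemma rG_mul_le : rG * (1024 * (NN : ℝ) ^ 4) ≤ 1 := by
  have h := Gam_ge'
  have h2 := rG_mul_Gam
  calc rG * (1024 * (NN : ℝ) ^ 4) ≤ rG * Gam := mul_le_mul_of_nonneg_left h rG_pos.le
    _ = 1 := h2

lemma abs_rG_mul_le {x : ℝ} (hx : |x| ≤ 3 * (NN : ℝ) ^ 4) : |rG * x| ≤ 1 / 8 := by
  rw [abs_mul, abs_of_nonneg rG_pos.le]
  have h := rG_mul_le
  have h1 : rG * |x| ≤ rG * (3 * (NN : ℝ) ^ 4) := mul_le_mul_of_nonneg_left hx rG_pos.le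
  have h2 : 0 ≤ rG * (NN : ℝ) ^ 4 := mul_nonneg rG_pos.le (pow_nonneg NNr_pos.le _)
  nlinarith

lemma pt_0_eq (p q : ℕ → Letter) : pt p q 0 = ee (q 0) + rG * pt p (tl q) 0 := by
  simp only [pt_0]
  exact ser_succ rG_pos.le rG_lt_one (fun k => abs_ee_le _)

lemma pt_4_eq (p q : ℕ → Letter) : pt p q 4 = ee (p 0) + rG * pt (tl p) q 4 := by
  simp only [pt_4]
  exact ser_succ rG_pos.le rG_lt_one (fun k => abs_ee_le _)

lemma pt_1_eq (p q : ℕ → Letter) : pt p q 1 = xi (p 0) + rN * pt (tl p) q 1 := by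
  simp only [pt_1]
  exact ser_succ rN_pos.le rN_lt_one (fun k => abs_xi_le _)

lemma pt_2_eq (p q : ℕ → Letter) : pt p q 2 = et (p 0) + rN * pt (tl p) q 2 := by
  simp only [pt_2]
  exact ser_succ rN_pos.le rN_lt_one (fun k => abs_et_le _)

lemma pt_3_eq (p q : ℕ → Letter) : pt p q 3 = ze (p 0) + rM * pt (tl p) q 3 := by
  simp only [pt_3]
  exact ser_succ rM_pos.le rM_lt_one (fun k => abs_ze_le _)

lemma pt_0_near (p q : ℕ → Letter) : |pt p q 0 - ee (q 0)| ≤ 1 / 8 := by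
  rw [pt_0_eq, add_sub_cancel_left]
  refine abs_rG_mul_le ?_
  have := ser_ee_le (tl q)
  rw [pt_0]
  refine this.trans ?_
  have : 0 ≤ (NN : ℝ) ^ 4 := pow_nonneg NNr_pos.le _
  linarith

lemma pt_4_near (p q : ℕ → Letter) : |pt p q 4 - ee (p 0)| ≤ 1 / 8 := by
  rw [pt_4_eq, add_sub_cancel_left]
  refine abs_rG_mul_le ?_
  have := ser_ee_le (tl p)
  rw [pt_4]
  refine this.trans ?_
  have : 0 ≤ (NN : ℝ) ^ 4 := pow_nonneg NNr_pos.le _
  linarith

lemma rG_pt_0 (p q : ℕ → Letter) : |rG * pt p q 0| ≤ 1 / 8 := by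
  refine abs_rG_mul_le ?_
  have := ser_ee_le q
  rw [pt_0]
  refine this.trans ?_
  have : 0 ≤ (NN : ℝ) ^ 4 := pow_nonneg NNr_pos.le _
  linarith

lemma rG_pt_4 (p q : ℕ → Letter) : |rG * pt p q 4| ≤ 1 / 8 := by
  refine abs_rG_mul_le ?_
  have := ser_ee_le p
  rw [pt_4]
  refine this.trans ?_
  have : 0 ≤ (NN : ℝ) ^ 4 := pow_nonneg NNr_pos.le _
  linarith

/-! ### affine branches -/

lemma fwd_near {P : E5} {a : Letter} (h0 : |P 0 - ee a| ≤ 1 / 4) (h4 : |rG * P 4| ≤ 1 / 4) :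
    fwd P = !₂[Gam * (P 0 - ee a), rN * P 1 + xi a, rN * P 2 + et a, rM * P 3 + ze a,
      rG * P 4 + ee a] := by
  have h : ∀ φ, intp φ (P 0) = φ a := fun φ => intp_eq φ h0
  have h' : intp ee (rG * P 4 + ee a) = ee a := by
    apply intp_eq
    rw [add_sub_cancel_right]; exact h4
  unfold fwd
  rw [h, h, h, h, h', mul_sub]

lemma bwd_near {Q : E5} {a : Letter} (h4 : |Q 4 - ee a| ≤ 1 / 4) (h0 : |rG * Q 0| ≤ 1 / 4) :
    bwd Q = !₂[rG * Q 0 + ee a, NN * (Q 1 - xi a), NN * (Q 2 - et a), NN ^ 2 * (Q 3 - ze a),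
      Gam * (Q 4 - ee a)] := by
  have h : intp ee (Q 4) = ee a := intp_eq ee h4
  have h' : ∀ φ, intp φ (rG * Q 0 + ee a) = φ a := by
    intro φ
    apply intp_eq
    rw [add_sub_cancel_right]; exact h0
  unfold bwd
  rw [h, h', h', h', h']

lemma fwd_pt (p q : ℕ → Letter) : fwd (pt p q) = pt (cons (q 0) p) (tl q) := by
  rw [fwd_near ((pt_0_near p q).trans (by norm_num)) ((rG_pt_4 p q).trans (by norm_num))]
  ext i
  fin_cases i
  · simp only [Fin.zero_eta, Fin.isValue]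
    have h := pt_0_eq p q
    show Gam * (pt p q 0 - ee (q 0)) = pt (cons (q 0) p) (tl q) 0
    rw [h, add_sub_cancel_left, ← mul_assoc, Gam_mul_rG, one_mul]
    rfl
  · show rN * pt p q 1 + xi (q 0) = pt (cons (q 0) p) (tl q) 1
    rw [pt_1_eq (cons (q 0) p)]
    simp only [cons_zero, tl_cons]
    rw [add_comm]; rfl
  · show rN * pt p q 2 + et (q 0) = pt (cons (q 0) p) (tl q) 2
    rw [pt_2_eq (cons (q 0) p)]
    simp only [cons_zero, tl_cons]
    rw [add_comm]; rfl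
  · show rM * pt p q 3 + ze (q 0) = pt (cons (q 0) p) (tl q) 3
    rw [pt_3_eq (cons (q 0) p)]
    simp only [cons_zero, tl_cons]
    rw [add_comm]; rfl
  · show rG * pt p q 4 + ee (q 0) = pt (cons (q 0) p) (tl q) 4
    rw [pt_4_eq (cons (q 0) p)]
    simp only [cons_zero, tl_cons]
    rw [add_comm]; rfl

lemma bwd_pt (p q : ℕ → Letter) : bwd (pt p q) = pt (tl p) (cons (p 0) q) := by
  have h := fwd_pt (tl p) (cons (p 0) q)
  simp only [cons_zero, cons_tl, tl_cons] at h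
  rw [← h, bwd_fwd]

lemma ff_apply (x : E5) : ff x = fwd x := rfl
lemma ff_symm_apply (x : E5) : ff.symm x = bwd x := rfl

lemma ff_image : ff '' Lam = Lam := by
  apply Set.Subset.antisymm
  · rintro _ ⟨_, ⟨⟨p, q⟩, rfl⟩, rfl⟩
    exact ⟨(cons (q 0) p, tl q), (fwd_pt p q).symm⟩
  · rintro _ ⟨⟨p, q⟩, rfl⟩
    refine ⟨pt (tl p) (cons (p 0) q), pt_mem _ _, ?_⟩
    rw [ff_apply, fwd_pt]
    simp

/-! ### closeness of points with common codes -/

lemma rM_pow_le (m : ℕ) : rM ^ m ≤ rN ^ m := pow_le_pow_left₀ rM_pos.le rM_le_rN m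
lemma rG_pow_le (m : ℕ) : rG ^ m ≤ rN ^ m := pow_le_pow_left₀ rG_pos.le rG_le_rN m

lemma NN4_ge : 2 * (NN : ℝ) ≤ (NN : ℝ) ^ 4 := by
  have h := NNr_ge
  have h1 : (1 : ℝ) ≤ (NN : ℝ) ^ 2 := one_le_pow₀ (by linarith)
  nlinarith

lemma dist_pt_le {p q p' q' : ℕ → Letter} {m : ℕ} (hp : ∀ k < m, p k = p' k)
    (hq : ∀ k < m, q k = q' k) : dist (pt p q) (pt p' q') ≤ 12 * (NN : ℝ) ^ 4 * rN ^ m := by
  have hN := NN4_ge
  have hrm : 0 ≤ rN ^ m := pow_nonneg rN_pos.le _
  have h4 : 0 ≤ (NN : ℝ) ^ 4 := pow_nonneg NNr_pos.le _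
  have key : ∀ i, |pt p q i - pt p' q' i| ≤ 4 * (NN : ℝ) ^ 4 * rN ^ m := by
    intro i
    fin_cases i
    · show |pt p q 0 - pt p' q' 0| ≤ _
      simp only [pt_0]
      refine (abs_ser_sub_ser_le rG_pos.le rG_half (fun k => abs_ee_le _) (fun k => abs_ee_le _) m
        (fun k hk => by rw [hq k hk])).trans ?_
      exact mul_le_mul_of_nonneg_left (rG_pow_le m) (by positivity)
    · show |pt p q 1 - pt p' q' 1| ≤ _
      simp only [pt_1]
      refine (abs_ser_sub_ser_le rN_pos.le rN_half (fun k => abs_xi_le _) (fun k => abs_xi_le _) m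
        (fun k hk => by rw [hp k hk])).trans ?_
      exact mul_le_mul_of_nonneg_right (by linarith) hrm
    · show |pt p q 2 - pt p' q' 2| ≤ _
      simp only [pt_2]
      refine (abs_ser_sub_ser_le rN_pos.le rN_half (fun k => abs_et_le _) (fun k => abs_et_le _) m
        (fun k hk => by rw [hp k hk])).trans ?_
      exact mul_le_mul_of_nonneg_right (by linarith) hrm
    · show |pt p q 3 - pt p' q' 3| ≤ _
      simp only [pt_3]
      refine (abs_ser_sub_ser_le rM_pos.le rM_half (fun k => abs_ze_le _) (fun k => abs_ze_le _) m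
        (fun k hk => by rw [hp k hk])).trans ?_
      exact mul_le_mul (by linarith) (rM_pow_le m) (pow_nonneg rM_pos.le _) (by positivity)
    · show |pt p q 4 - pt p' q' 4| ≤ _
      simp only [pt_4]
      refine (abs_ser_sub_ser_le rG_pos.le rG_half (fun k => abs_ee_le _) (fun k => abs_ee_le _) m
        (fun k hk => by rw [hp k hk])).trans ?_
      exact mul_le_mul_of_nonneg_left (rG_pow_le m) (by positivity)
  refine (dist_le_of_coord (by positivity) key).trans (le_of_eq (by ring))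

lemma tendsto_bound : Tendsto (fun m : ℕ => 12 * (NN : ℝ) ^ 4 * rN ^ m) atTop (𝓝 0) := by
  have h := (tendsto_pow_atTop_nhds_zero_of_lt_one rN_pos.le rN_lt_one).const_mul
    (12 * (NN : ℝ) ^ 4)
  simpa using h

/-! ### compactness -/

lemma continuous_pt : Continuous (fun x : (ℕ → Letter) × (ℕ → Letter) => pt x.1 x.2) := by
  have h1 := continuous_ser (α := Letter) ee rG_pos.le rG_lt_one abs_ee_le
  have h2 := continuous_ser (α := Letter) xi rN_pos.le rN_lt_one abs_xi_le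
  have h3 := continuous_ser (α := Letter) et rN_pos.le rN_lt_one abs_et_le
  have h4 := continuous_ser (α := Letter) ze rM_pos.le rM_lt_one abs_ze_le
  unfold pt
  refine (PiLp.continuous_toLp 2 _).comp (continuous_pi fun i => ?_)
  fin_cases i
  · exact h1.comp continuous_snd
  · exact h2.comp continuous_fst
  · exact h3.comp continuous_fst
  · exact h4.comp continuous_fst
  · exact h1.comp continuous_fst

lemma isCompact_Lam : IsCompact Lam := isCompact_range continuous_pt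

lemma Lam_nonempty : Lam.Nonempty := ⟨_, pt_mem (fun _ => Sum.inr 0) (fun _ => Sum.inr 0)⟩

end Pool.Agent.MPe6529f
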