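import Mathlib
import Pool.Agent.Lib.MP_e6529f_an.Horseshoe

/-!
# `Lam` is a basic set
-/

namespace Pool.Agent.MPe6529f

open Filter Topology Set
open scoped ContDiff

/-! ### topological transitivity -/

/-- follow `q` for `m` steps, then read `p'` backwards from `m - 1` to `0`, then follow `q'`. -/
def glue {α : Type*} (m : ℕ) (q p' q' : ℕ → α) : ℕ → α := fun k =>
  if k < m then q k else if k < 2 * m then p' (2 * m - 1 - k) else q' (k - 2 * m)

/-- iterating on codes -/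
def past {α : Type*} (n : ℕ) (p q : ℕ → α) : ℕ → α := fun k =>
  if k < n then q (n - 1 - k) else p (k - n)

def futr {α : Type*} (n : ℕ) (q : ℕ → α) : ℕ → α := fun k => q (k + n)

lemma fwd_iter_pt (n : ℕ) (p q : ℕ → Letter) : fwd^[n] (pt p q) = pt (past n p q) (futr n q) := by
  induction n with
  | zero =>
    simp only [Function.iterate_zero, id_eq]
    congr 1
  | succ n ih =>
    rw [Function.iterate_succ_apply', ih, fwd_pt]
    congr 1
    · funext k
      cases k with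
      | zero => simp [past, futr]
      | succ k =>
        simp only [cons_succ, past]
        by_cases h : k < n
        · rw [if_pos h, if_pos (by omega)]
          congr 1
          omega
        · rw [if_neg h, if_neg (by omega)]
          congr 1
          omega
    · funext k
      simp only [tl, futr]
      congr 1
      omega

lemma transitive_Lam : ∀ V W : Set E5, IsOpen V → IsOpen W → (V ∩ Lam).Nonempty →
    (W ∩ Lam).Nonempty → ∃ n : ℕ, (ff^[n] '' (V ∩ Lam) ∩ (W ∩ Lam)).Nonempty := by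
  rintro V W hV hW ⟨_, hxV, ⟨⟨p, q⟩, rfl⟩⟩ ⟨_, hyW, ⟨⟨p', q'⟩, rfl⟩⟩
  obtain ⟨ε₁, hε₁, hb₁⟩ := Metric.isOpen_iff.mp hV _ hxV
  obtain ⟨ε₂, hε₂, hb₂⟩ := Metric.isOpen_iff.mp hW _ hyW
  obtain ⟨m, hm⟩ := ((tendsto_bound.eventually_lt_const (lt_min hε₁ hε₂))).exists
  refine ⟨2 * m, pt (past (2 * m) p (glue m q p' q')) (futr (2 * m) (glue m q p' q')),
    ⟨pt p (glue m q p' q'), ⟨?_, pt_mem _ _⟩, ?_⟩, ?_, pt_mem _ _⟩
  · apply hb₁
    rw [Metric.mem_ball]
    refine (dist_pt_le (m := m) (fun k _ => rfl) (fun k hk => ?_)).trans_lt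
      (hm.trans_le (min_le_left _ _))
    simp [glue, hk]
  · exact fwd_iter_pt _ _ _
  · apply hb₂
    rw [Metric.mem_ball]
    refine (dist_pt_le (m := m) (fun k hk => ?_) (fun k hk => ?_)).trans_lt
      (hm.trans_le (min_le_right _ _))
    · simp only [past, glue]
      rw [if_pos (by omega), if_neg (by omega), if_pos (by omega)]
      congr 1
      omega
    · simp only [futr, glue]
      rw [if_neg (by omega), if_neg (by omega)]
      congr 1
      omega

/-! ### local maximality -/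

/-- the isolating neighbourhood -/
def Un : Set E5 := {P | (∃ a : Letter, |P 0 - ee a| < 1 / 4) ∧ |P 1| < 5 * NN ∧ |P 2| < 5 * NN ∧
  |P 3| < 5 * NN ∧ |P 4| < 3 * (NN : ℝ) ^ 4}

lemma continuous_coord (i : Fin 5) : Continuous (fun P : E5 => P i) :=
  (continuous_apply i).comp (PiLp.continuous_ofLp 2 _)

lemma isOpen_Un : IsOpen Un := by
  unfold Un
  have hc := continuous_coord
  refine IsOpen.inter ?_ (IsOpen.inter ?_ (IsOpen.inter ?_ (IsOpen.inter ?_ ?_)))
  · have : {P : E5 | ∃ a : Letter, |P 0 - ee a| < 1 / 4} =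
        ⋃ a : Letter, {P : E5 | |P 0 - ee a| < 1 / 4} := by
      ext P; simp
    show IsOpen {P : E5 | ∃ a : Letter, |P 0 - ee a| < 1 / 4}
    rw [this]
    exact isOpen_iUnion fun a => isOpen_lt (((hc 0).sub continuous_const).abs) continuous_const
  · exact isOpen_lt (hc 1).abs continuous_const
  · exact isOpen_lt (hc 2).abs continuous_const
  · exact isOpen_lt (hc 3).abs continuous_const
  · exact isOpen_lt (hc 4).abs continuous_const

lemma Lam_subset_Un : Lam ⊆ Un := by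
  rintro _ ⟨⟨p, q⟩, rfl⟩
  have hN := NNr_pos
  have hN4 : 0 < (NN : ℝ) ^ 4 := pow_pos hN _
  refine ⟨⟨q 0, (pt_0_near p q).trans_lt (by norm_num)⟩, ?_, ?_, ?_, ?_⟩
  · show |pt p q 1| < _
    rw [pt_1]
    have := abs_ser_le rN_pos.le rN_half (fun k => abs_xi_le (p k))
    linarith
  · show |pt p q 2| < _
    rw [pt_2]
    have := abs_ser_le rN_pos.le rN_half (fun k => abs_et_le (p k))
    linarith
  · show |pt p q 3| < _
    rw [pt_3]
    have := abs_ser_le rM_pos.le rM_half (fun k => abs_ze_le (p k))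
    linarith
  · show |pt p q 4| < _
    rw [pt_4]
    have := ser_ee_le p
    linarith

lemma eq_ser_of_rec {r B B' : ℝ} {w x : ℕ → ℝ} (hr0 : 0 ≤ r) (hr : r ≤ 1 / 2)
    (hw : ∀ k, |w k| ≤ B) (hx : ∀ k, |x k| ≤ B') (h : ∀ k, x k = w k + r * x (k + 1)) :
    x 0 = ser r w := by
  have h1 : ∀ m, x 0 = (∑ k ∈ Finset.range m, w k * r ^ k) + r ^ m * x m := by
    intro m
    induction m with
    | zero => simp
    | succ m ih =>
      rw [ih, Finset.sum_range_succ, h m, pow_succ]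
      ring
  have h2 : ∀ m, |x 0 - ser r w| ≤ (B' + 2 * B) * r ^ m := by
    intro m
    have h3 := abs_ser_sub_le hr0 hr hw m
    have h4 : |x 0 - ∑ k ∈ Finset.range m, w k * r ^ k| ≤ B' * r ^ m := by
      rw [h1 m, add_sub_cancel_left, abs_mul, abs_of_nonneg (pow_nonneg hr0 m), mul_comm]
      exact mul_le_mul_of_nonneg_right (hx m) (pow_nonneg hr0 m)
    rw [abs_le] at *
    constructor <;> nlinarith [h3.1, h3.2, h4.1, h4.2]
  have h5 : Tendsto (fun m : ℕ => (B' + 2 * B) * r ^ m) atTop (𝓝 0) := by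
    simpa using (tendsto_pow_atTop_nhds_zero_of_lt_one hr0 (by linarith : r < 1)).const_mul
      (B' + 2 * B)
  have h6 : |x 0 - ser r w| ≤ 0 := ge_of_tendsto' h5 h2
  have h7 := abs_nonpos_iff.mp h6
  linarith

lemma Un_bounds {P : E5} (h : P ∈ Un) : |P 0| ≤ 3 * (NN : ℝ) ^ 4 ∧ |P 1| ≤ 5 * NN ∧ |P 2| ≤ 5 * NN ∧
    |P 3| ≤ 5 * NN ∧ |P 4| ≤ 3 * (NN : ℝ) ^ 4 := by
  obtain ⟨⟨a, ha⟩, h1, h2, h3, h4⟩ := h
  refine ⟨?_, h1.le, h2.le, h3.le, h4.le⟩
  have := abs_ee_le a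
  have hN : 1 ≤ (NN : ℝ) ^ 4 := one_le_pow₀ (by have := NNr_ge; linarith)
  have h5 : |P 0| ≤ |P 0 - ee a| + |ee a| := by
    have := abs_add_le (P 0 - ee a) (ee a)
    simpa using this
  linarith

lemma fwd_Un {P : E5} {a : Letter} (hP : P ∈ Un) (h0 : |P 0 - ee a| < 1 / 4) :
    fwd P 0 = Gam * (P 0 - ee a) ∧ fwd P 1 = rN * P 1 + xi a ∧ fwd P 2 = rN * P 2 + et a ∧
    fwd P 3 = rM * P 3 + ze a ∧ fwd P 4 = rG * P 4 + ee a := by
  have h := fwd_near h0.le ((abs_rG_mul_le (Un_bounds hP).2.2.2.2).trans (by norm_num))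
  rw [h]
  exact ⟨rfl, rfl, rfl, rfl, rfl⟩

lemma ff_zpow_succ (n : ℤ) (P : E5) : (ff ^ (n + 1) : Equiv.Perm E5) P = fwd ((ff ^ n : Equiv.Perm E5) P) := by
  rw [add_comm, zpow_add, zpow_one]
  rfl

lemma mem_Lam_of_forall {P : E5} (h : ∀ n : ℤ, (ff ^ n : Equiv.Perm E5) P ∈ Un) : P ∈ Lam := by
  choose i hi using fun n => (h n).1
  refine ⟨(fun k : ℕ => i (-(k : ℤ) - 1), fun k : ℕ => i (k : ℤ)), ?_⟩
  have hstep : ∀ n : ℤ, ∀ m : ℤ, m = n + 1 →
      (ff ^ m : Equiv.Perm E5) P 0 = Gam * ((ff ^ n : Equiv.Perm E5) P 0 - ee (i n)) ∧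
      (ff ^ m : Equiv.Perm E5) P 1 = rN * (ff ^ n : Equiv.Perm E5) P 1 + xi (i n) ∧
      (ff ^ m : Equiv.Perm E5) P 2 = rN * (ff ^ n : Equiv.Perm E5) P 2 + et (i n) ∧
      (ff ^ m : Equiv.Perm E5) P 3 = rM * (ff ^ n : Equiv.Perm E5) P 3 + ze (i n) ∧
      (ff ^ m : Equiv.Perm E5) P 4 = rG * (ff ^ n : Equiv.Perm E5) P 4 + ee (i n) := by
    rintro n m rfl
    rw [ff_zpow_succ]
    exact fwd_Un (h n) (hi n)
  have hb := fun n : ℤ => Un_bounds (h n)
  -- coordinate 0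
  have c0 := eq_ser_of_rec (r := rG) (B := (NN : ℝ) ^ 4) (B' := 3 * (NN : ℝ) ^ 4)
    (w := fun k : ℕ => ee (i (k : ℤ))) (x := fun k : ℕ => (ff ^ (k : ℤ) : Equiv.Perm E5) P 0)
    rG_pos.le rG_half (fun k => abs_ee_le _) (fun k => (hb k).1) (fun k => by
      have h1 := (hstep (k : ℤ) ((k + 1 : ℕ) : ℤ) (by push_cast; ring)).1
      simp only
      rw [h1, ← mul_assoc, rG_mul_Gam]; ring)
  have c1 := eq_ser_of_rec (r := rN) (B := 2 * (NN : ℝ)) (B' := 5 * (NN : ℝ))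
    (w := fun k : ℕ => xi (i (-(k : ℤ) - 1))) (x := fun k : ℕ => (ff ^ (-(k : ℤ)) : Equiv.Perm E5) P 1)
    rN_pos.le rN_half (fun k => abs_xi_le _) (fun k => (hb _).2.1) (fun k => by
      have h1 := (hstep (-(k : ℤ) - 1) (-(k : ℤ)) (by ring)).2.1
      simp only
      rw [h1, show -((k + 1 : ℕ) : ℤ) = -(k : ℤ) - 1 by push_cast; ring]; ring)
  have c2 := eq_ser_of_rec (r := rN) (B := 2 * (NN : ℝ)) (B' := 5 * (NN : ℝ))
    (w := fun k : ℕ => et (i (-(k : ℤ) - 1))) (x := fun k : ℕ => (ff ^ (-(k : ℤ)) : Equiv.Perm E5) P 2)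
    rN_pos.le rN_half (fun k => abs_et_le _) (fun k => (hb _).2.2.1) (fun k => by
      have h1 := (hstep (-(k : ℤ) - 1) (-(k : ℤ)) (by ring)).2.2.1
      simp only
      rw [h1, show -((k + 1 : ℕ) : ℤ) = -(k : ℤ) - 1 by push_cast; ring]; ring)
  have c3 := eq_ser_of_rec (r := rM) (B := 2 * (NN : ℝ)) (B' := 5 * (NN : ℝ))
    (w := fun k : ℕ => ze (i (-(k : ℤ) - 1))) (x := fun k : ℕ => (ff ^ (-(k : ℤ)) : Equiv.Perm E5) P 3)
    rM_pos.le rM_half (fun k => abs_ze_le _) (fun k => (hb _).2.2.2.1) (fun k => by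
      have h1 := (hstep (-(k : ℤ) - 1) (-(k : ℤ)) (by ring)).2.2.2.1
      simp only
      rw [h1, show -((k + 1 : ℕ) : ℤ) = -(k : ℤ) - 1 by push_cast; ring]; ring)
  have c4 := eq_ser_of_rec (r := rG) (B := (NN : ℝ) ^ 4) (B' := 3 * (NN : ℝ) ^ 4)
    (w := fun k : ℕ => ee (i (-(k : ℤ) - 1))) (x := fun k : ℕ => (ff ^ (-(k : ℤ)) : Equiv.Perm E5) P 4)
    rG_pos.le rG_half (fun k => abs_ee_le _) (fun k => (hb _).2.2.2.2) (fun k => by
      have h1 := (hstep (-(k : ℤ) - 1) (-(k : ℤ)) (by ring)).2.2.2.2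
      simp only
      rw [h1, show -((k + 1 : ℕ) : ℤ) = -(k : ℤ) - 1 by push_cast; ring]; ring)
  simp only [Nat.cast_zero, zpow_zero, Equiv.Perm.coe_one, id_eq, neg_zero] at c0 c1 c2 c3 c4
  ext j
  fin_cases j
  · exact c0.symm
  · exact c1.symm
  · exact c2.symm
  · exact c3.symm
  · exact c4.symm

lemma zpow_mem_Lam {P : E5} (h : P ∈ Lam) (n : ℤ) : (ff ^ n : Equiv.Perm E5) P ∈ Lam := by
  have h1 : ∀ P ∈ Lam, ff P ∈ Lam := fun P hP => ff_image ▸ Set.mem_image_of_mem _ hP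
  have h2 : ∀ P ∈ Lam, ff.symm P ∈ Lam := by
    rintro _ ⟨⟨p, q⟩, rfl⟩
    rw [ff_symm_apply]
    show bwd (pt p q) ∈ Lam
    rw [bwd_pt]
    exact pt_mem _ _
  induction n using Int.induction_on with
  | zero => simpa using h
  | succ n ih =>
    rw [add_comm, zpow_add, zpow_one]
    exact h1 _ ih
  | pred n ih =>
    rw [sub_eq_add_neg, add_comm, zpow_add, zpow_neg, zpow_one]
    exact h2 _ ih

lemma locMax : Lam = ⋂ n : ℤ, (ff ^ n : Equiv.Perm E5) '' Un := by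
  apply Set.Subset.antisymm
  · intro P hP
    rw [Set.mem_iInter]
    intro n
    refine ⟨(ff ^ (-n) : Equiv.Perm E5) P, Lam_subset_Un (zpow_mem_Lam hP _), ?_⟩
    rw [zpow_neg]
    exact (ff ^ n : Equiv.Perm E5).apply_symm_apply P
  · intro P hP
    rw [Set.mem_iInter] at hP
    apply mem_Lam_of_forall
    intro n
    obtain ⟨Q, hQ, hQP⟩ := hP (-n)
    rw [← hQP, zpow_neg]
    have : (ff ^ n : Equiv.Perm E5) ((ff ^ n : Equiv.Perm E5)⁻¹ Q) = Q :=
      (ff ^ n : Equiv.Perm E5).apply_symm_apply Q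
    rw [this]
    exact hQ

/-! ### hyperbolicity -/

/-- diagonal maps -/
noncomputable def dg (d : Fin 5 → ℝ) : E5 →L[ℝ] E5 :=
  LinearMap.toContinuousLinearMap
    { toFun := fun v => WithLp.toLp 2 (fun i => d i * v i)
      map_add' := fun v w => by ext i; simp [mul_add]
      map_smul' := fun c v => by ext i; simp; ring }

@[simp] lemma dg_apply (d : Fin 5 → ℝ) (v : E5) (i : Fin 5) : dg d v i = d i * v i := rfl

lemma dg_comp (d d' : Fin 5 → ℝ) : (dg d).comp (dg d') = dg (d * d') := by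
  ext v i
  simp [mul_assoc]

lemma norm_le_of_coord {v w : E5} {s : ℝ} (hs : 0 ≤ s) (h : ∀ i, |v i| ≤ s * |w i|) :
    ‖v‖ ≤ s * ‖w‖ := by
  rw [EuclideanSpace.norm_eq, EuclideanSpace.norm_eq]
  refine Real.sqrt_le_iff.mpr ⟨mul_nonneg hs (Real.sqrt_nonneg _), ?_⟩
  rw [mul_pow, Real.sq_sqrt (Finset.sum_nonneg fun i _ => sq_nonneg _), Finset.mul_sum]
  refine Finset.sum_le_sum fun i _ => ?_
  rw [← mul_pow, Real.norm_eq_abs, Real.norm_eq_abs]
  exact pow_le_pow_left₀ (abs_nonneg _) (h i) 2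

noncomputable def dF : Fin 5 → ℝ := ![Gam, rN, rN, rM, rG]
noncomputable def dB : Fin 5 → ℝ := ![rG, (NN : ℝ), (NN : ℝ), (NN : ℝ) ^ 2, Gam]

lemma hasFDerivAt_fwd (p q : ℕ → Letter) : HasFDerivAt fwd (dg dF) (pt p q) := by
  have hc := continuous_coord
  have h1 : ∀ᶠ P : E5 in 𝓝 (pt p q), |P 0 - ee (q 0)| < 1 / 4 :=
    (((hc 0).sub continuous_const).abs.tendsto _).eventually_lt_const
      ((pt_0_near p q).trans_lt (by norm_num))
  have h2 : ∀ᶠ P : E5 in 𝓝 (pt p q), |rG * P 4| < 1 / 4 :=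
    ((continuous_const.mul (hc 4)).abs.tendsto _).eventually_lt_const
      ((rG_pt_4 p q).trans_lt (by norm_num))
  have h3 : fwd =ᶠ[𝓝 (pt p q)] fun P => fwd (pt p q) + dg dF (P - pt p q) := by
    filter_upwards [h1, h2] with P hP1 hP2
    rw [fwd_near hP1.le hP2.le,
      fwd_near ((pt_0_near p q).trans (by norm_num)) ((rG_pt_4 p q).trans (by norm_num))]
    ext i
    fin_cases i
    · show Gam * (P 0 - ee (q 0)) = Gam * (pt p q 0 - ee (q 0)) + Gam * (P 0 - pt p q 0)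
      ring
    · show rN * P 1 + xi (q 0) = rN * pt p q 1 + xi (q 0) + rN * (P 1 - pt p q 1)
      ring
    · show rN * P 2 + et (q 0) = rN * pt p q 2 + et (q 0) + rN * (P 2 - pt p q 2)
      ring
    · show rM * P 3 + ze (q 0) = rM * pt p q 3 + ze (q 0) + rM * (P 3 - pt p q 3)
      ring
    · show rG * P 4 + ee (q 0) = rG * pt p q 4 + ee (q 0) + rG * (P 4 - pt p q 4)
      ring
  refine HasFDerivAt.congr_of_eventuallyEq ?_ h3
  have h4 : HasFDerivAt (fun P : E5 => dg dF (P - pt p q)) (dg dF) (pt p q) := by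
    have h5 : HasFDerivAt (fun P : E5 => P - pt p q) (ContinuousLinearMap.id ℝ E5) (pt p q) :=
      (hasFDerivAt_id _).sub_const _
    have h6 := (dg dF).hasFDerivAt.comp (pt p q) h5
    rw [ContinuousLinearMap.comp_id] at h6
    exact h6
  simpa using h4.const_add (fwd (pt p q))

lemma hasFDerivAt_bwd (p q : ℕ → Letter) : HasFDerivAt bwd (dg dB) (pt p q) := by
  have hc := continuous_coord
  have h1 : ∀ᶠ P : E5 in 𝓝 (pt p q), |P 4 - ee (p 0)| < 1 / 4 :=
    (((hc 4).sub continuous_const).abs.tendsto _).eventually_lt_const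
      ((pt_4_near p q).trans_lt (by norm_num))
  have h2 : ∀ᶠ P : E5 in 𝓝 (pt p q), |rG * P 0| < 1 / 4 :=
    ((continuous_const.mul (hc 0)).abs.tendsto _).eventually_lt_const
      ((rG_pt_0 p q).trans_lt (by norm_num))
  have h3 : bwd =ᶠ[𝓝 (pt p q)] fun P => bwd (pt p q) + dg dB (P - pt p q) := by
    filter_upwards [h1, h2] with P hP1 hP2
    rw [bwd_near hP1.le hP2.le,
      bwd_near ((pt_4_near p q).trans (by norm_num)) ((rG_pt_0 p q).trans (by norm_num))]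
    ext i
    fin_cases i
    · show rG * P 0 + ee (p 0) = rG * pt p q 0 + ee (p 0) + rG * (P 0 - pt p q 0)
      ring
    · show (NN : ℝ) * (P 1 - xi (p 0)) = NN * (pt p q 1 - xi (p 0)) + NN * (P 1 - pt p q 1)
      ring
    · show (NN : ℝ) * (P 2 - et (p 0)) = NN * (pt p q 2 - et (p 0)) + NN * (P 2 - pt p q 2)
      ring
    · show (NN : ℝ) ^ 2 * (P 3 - ze (p 0)) =
        NN ^ 2 * (pt p q 3 - ze (p 0)) + NN ^ 2 * (P 3 - pt p q 3)
      ring
    · show Gam * (P 4 - ee (p 0)) = Gam * (pt p q 4 - ee (p 0)) + Gam * (P 4 - pt p q 4)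
      ring
  refine HasFDerivAt.congr_of_eventuallyEq ?_ h3
  have h4 : HasFDerivAt (fun P : E5 => dg dB (P - pt p q)) (dg dB) (pt p q) := by
    have h5 : HasFDerivAt (fun P : E5 => P - pt p q) (ContinuousLinearMap.id ℝ E5) (pt p q) :=
      (hasFDerivAt_id _).sub_const _
    have h6 := (dg dB).hasFDerivAt.comp (pt p q) h5
    rw [ContinuousLinearMap.comp_id] at h6
    exact h6
  simpa using h4.const_add (bwd (pt p q))

lemma hasFDerivAt_fwd_iter (n : ℕ) : ∀ (p q : ℕ → Letter),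
    HasFDerivAt (fwd^[n]) (dg (dF ^ n)) (pt p q) := by
  induction n with
  | zero =>
    intro p q
    have : dg (dF ^ 0) = ContinuousLinearMap.id ℝ E5 := by ext v i; simp
    rw [this, Function.iterate_zero]
    exact hasFDerivAt_id _
  | succ n ih =>
    intro p q
    rw [Function.iterate_succ, pow_succ, ← dg_comp]
    refine HasFDerivAt.comp (pt p q) ?_ (hasFDerivAt_fwd p q)
    rw [fwd_pt]
    exact ih _ _

lemma hasFDerivAt_bwd_iter (n : ℕ) : ∀ (p q : ℕ → Letter),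
    HasFDerivAt (bwd^[n]) (dg (dB ^ n)) (pt p q) := by
  induction n with
  | zero =>
    intro p q
    have : dg (dB ^ 0) = ContinuousLinearMap.id ℝ E5 := by ext v i; simp
    rw [this, Function.iterate_zero]
    exact hasFDerivAt_id _
  | succ n ih =>
    intro p q
    rw [Function.iterate_succ, pow_succ, ← dg_comp]
    refine HasFDerivAt.comp (pt p q) ?_ (hasFDerivAt_bwd p q)
    rw [bwd_pt]
    exact ih _ _

lemma hyperbolic_Lam : IsHyperbolicOn ff Lam := by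
  refine ⟨fun _ => dg ![0, 1, 1, 1, 1], continuousOn_const, ?_, ?_, 1, rN, one_pos, rN_pos,
    rN_lt_one, ?_⟩
  · intro x _
    rw [dg_comp]
    congr 1
    funext i
    fin_cases i <;> simp
  · rintro _ ⟨⟨p, q⟩, rfl⟩
    have h : fderiv ℝ ff (pt p q) = dg dF := (hasFDerivAt_fwd p q).fderiv
    show (fderiv ℝ ff (pt p q)).comp _ = ContinuousLinearMap.comp _ (fderiv ℝ ff (pt p q))
    rw [h, dg_comp, dg_comp, mul_comm]
  · rintro _ ⟨⟨p, q⟩, rfl⟩ n v
    have h : fderiv ℝ (ff^[n]) (pt p q) = dg (dF ^ n) := (hasFDerivAt_fwd_iter n p q).fderiv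
    have h' : fderiv ℝ (ff.symm^[n]) (pt p q) = dg (dB ^ n) := (hasFDerivAt_bwd_iter n p q).fderiv
    show ‖fderiv ℝ (ff^[n]) (pt p q) _‖ ≤ _ ∧ ‖fderiv ℝ (ff.symm^[n]) (pt p q) _‖ ≤ _
    rw [h, h', one_mul]
    have hp : 0 ≤ rN ^ n := pow_nonneg rN_pos.le n
    have hM := rM_pow_le n
    have hG := rG_pow_le n
    have hM0 : 0 ≤ rM ^ n := pow_nonneg rM_pos.le n
    have hG0 : 0 ≤ rG ^ n := pow_nonneg rG_pos.le n
    constructor
    · refine norm_le_of_coord hp fun i => ?_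
      fin_cases i
      · show |Gam ^ n * (0 * v 0)| ≤ rN ^ n * |0 * v 0|
        simp
      · show |rN ^ n * (1 * v 1)| ≤ rN ^ n * |1 * v 1|
        rw [abs_mul, abs_of_nonneg hp]
      · show |rN ^ n * (1 * v 2)| ≤ rN ^ n * |1 * v 2|
        rw [abs_mul, abs_of_nonneg hp]
      · show |rM ^ n * (1 * v 3)| ≤ rN ^ n * |1 * v 3|
        rw [abs_mul, abs_of_nonneg hM0]
        exact mul_le_mul_of_nonneg_right hM (abs_nonneg _)
      · show |rG ^ n * (1 * v 4)| ≤ rN ^ n * |1 * v 4|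
        rw [abs_mul, abs_of_nonneg hG0]
        exact mul_le_mul_of_nonneg_right hG (abs_nonneg _)
    · refine norm_le_of_coord hp fun i => ?_
      fin_cases i
      · show |rG ^ n * (v 0 - 0 * v 0)| ≤ rN ^ n * |v 0 - 0 * v 0|
        rw [abs_mul, abs_of_nonneg hG0]
        exact mul_le_mul_of_nonneg_right hG (abs_nonneg _)
      · show |(NN : ℝ) ^ n * (v 1 - 1 * v 1)| ≤ rN ^ n * |v 1 - 1 * v 1|
        simp
      · show |(NN : ℝ) ^ n * (v 2 - 1 * v 2)| ≤ rN ^ n * |v 2 - 1 * v 2|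
        simp
      · show |((NN : ℝ) ^ 2) ^ n * (v 3 - 1 * v 3)| ≤ rN ^ n * |v 3 - 1 * v 3|
        simp
      · show |Gam ^ n * (v 4 - 1 * v 4)| ≤ rN ^ n * |v 4 - 1 * v 4|
        simp

theorem isBasicSet_Lam : IsBasicSet ff Lam where
  nonempty := Lam_nonempty
  compact := isCompact_Lam
  invariant := ff_image
  hyperbolic := hyperbolic_Lam
  locallyMaximal := ⟨Un, isOpen_Un, Lam_subset_Un, locMax⟩
  transitive := transitive_Lam

end Pool.Agent.MPe6529f
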