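import Mathlib
import Pool.Agent.Lib.MP_e6529f_an.Defs

/-!
# General facts on covering numbers and box dimensions
-/

namespace Pool.Agent.MPe6529f

open Filter Topology Set

section
variable {X : Type*} [PseudoMetricSpace X]

lemma coverSet_nonempty {K L : Set X} (hK : IsCompact K) (hL : L ⊆ K) {δ : ℝ} (hδ : 0 < δ) :
    {n : ℕ | ∃ c : Fin n → Set X,
      (∀ i, Metric.ediam (c i) ≤ ENNReal.ofReal δ) ∧ L ⊆ ⋃ i, c i}.Nonempty := by
  obtain ⟨t, -, ht, hcov⟩ := hK.finite_cover_balls (e := δ / 2) (by linarith)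
  obtain ⟨n, c, hc⟩ : ∃ (n : ℕ) (c : Fin n → X), Set.range c = t := by
    have := ht.fintype
    refine ⟨Fintype.card t, fun i => ((Fintype.equivFin t).symm i : X), ?_⟩
    ext x
    constructor
    · rintro ⟨i, rfl⟩
      exact ((Fintype.equivFin t).symm i).2
    · intro hx
      exact ⟨Fintype.equivFin t ⟨x, hx⟩, by simp⟩
  refine ⟨n, fun i => Metric.ball (c i) (δ / 2), fun i => ?_, ?_⟩
  · refine Metric.ediam_le fun x hx y hy => ?_
    rw [edist_dist]
    apply ENNReal.ofReal_le_ofReal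
    have h1 := Metric.mem_ball.mp hx
    have h2 := Metric.mem_ball'.mp hy
    have h3 := dist_triangle x (c i) y
    linarith
  · intro x hx
    obtain ⟨y, hy, hxy⟩ := Set.mem_iUnion₂.mp (hcov (hL hx))
    rw [← hc] at hy
    obtain ⟨i, rfl⟩ := hy
    exact Set.mem_iUnion.mpr ⟨i, hxy⟩

lemma coverNum_le {ι : Type*} [Fintype ι] {L : Set X} {δ : ℝ} (c : ι → Set X)
    (h1 : ∀ i, ∀ x ∈ c i, ∀ y ∈ c i, dist x y ≤ δ) (h2 : L ⊆ ⋃ i, c i) :
    coverNum δ L ≤ Fintype.card ι := by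
  apply Nat.sInf_le
  refine ⟨fun i => c ((Fintype.equivFin ι).symm i), fun i => ?_, ?_⟩
  · refine Metric.ediam_le fun x hx y hy => ?_
    rw [edist_dist]
    exact ENNReal.ofReal_le_ofReal (h1 _ x hx y hy)
  · intro x hx
    obtain ⟨i, hi⟩ := Set.mem_iUnion.mp (h2 hx)
    exact Set.mem_iUnion.mpr ⟨Fintype.equivFin ι i, by simpa using hi⟩

lemma le_coverNum {ι : Type*} [Fintype ι] {K L : Set X} (hK : IsCompact K) (hL : L ⊆ K) {δ : ℝ}
    (hδ : 0 < δ) (φ : ι → X) (h1 : ∀ i, φ i ∈ L) (h2 : ∀ i j, i ≠ j → δ < dist (φ i) (φ j)) :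
    Fintype.card ι ≤ coverNum δ L := by
  obtain ⟨c, hc1, hc2⟩ := Nat.sInf_mem (coverSet_nonempty hK hL hδ)
  have h3 : ∀ i, ∃ j, φ i ∈ c j := fun i => Set.mem_iUnion.mp (hc2 (h1 i))
  choose g hg using h3
  have h4 : Function.Injective g := by
    intro i j hij
    by_contra hne
    have h5 := h2 i j hne
    have h6 : edist (φ i) (φ j) ≤ ENNReal.ofReal δ := by
      refine le_trans (Metric.edist_le_ediam_of_mem (hg i) ?_) (hc1 (g i))
      rw [hij]; exact hg j
    rw [edist_dist, ENNReal.ofReal_le_ofReal_iff hδ.le] at h6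
    linarith
  have h7 := Fintype.card_le_of_injective g h4
  rw [Fintype.card_fin] at h7
  exact h7

/-- If along a sequence `δ k → 0+` the quotient is eventually `≤ b`, the lower box dimension is
`≤ b`. -/
lemma lowerBoxDim_le {K : Set X} {δ : ℕ → ℝ} {b : ℝ} (hδ0 : ∀ k, 0 < δ k)
    (hδ : Tendsto δ atTop (𝓝 0))
    (h : ∀ᶠ k in atTop, Real.log (coverNum (δ k) K) / (- Real.log (δ k)) ≤ b) :
    lowerBoxDim K ≤ (b : EReal) := by
  unfold lowerBoxDim
  apply liminf_le_of_frequently_le'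
  have h1 : Tendsto δ atTop (𝓝[>] 0) :=
    tendsto_nhdsWithin_iff.mpr ⟨hδ, Eventually.of_forall fun k => hδ0 k⟩
  refine h1.frequently ?_
  refine (h.mono fun k hk => ?_).frequently
  exact_mod_cast hk

/-- If along a sequence `δ k → 0+` the quotient is eventually `≥ b`, the upper box dimension is
`≥ b`. -/
lemma le_upperBoxDim {K : Set X} {δ : ℕ → ℝ} {b : ℝ} (hδ0 : ∀ k, 0 < δ k)
    (hδ : Tendsto δ atTop (𝓝 0))
    (h : ∀ᶠ k in atTop, b ≤ Real.log (coverNum (δ k) K) / (- Real.log (δ k))) :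
    (b : EReal) ≤ upperBoxDim K := by
  unfold upperBoxDim
  apply le_limsup_of_frequently_le'
  have h1 : Tendsto δ atTop (𝓝[>] 0) :=
    tendsto_nhdsWithin_iff.mpr ⟨hδ, Eventually.of_forall fun k => hδ0 k⟩
  refine h1.frequently ?_
  refine (h.mono fun k hk => ?_).frequently
  exact_mod_cast hk

end

end Pool.Agent.MPe6529f
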