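import Mathlib
import Pool.Agent.Lib.MP_e6529f_an.Horseshoe
import Pool.Agent.Lib.MP_e6529f_an.Cover

/-!
# Lower bound for the covering numbers at the scales `NN ^ (-2 (k+1)!)`
-/

namespace Pool.Agent.MPe6529f

open Filter Topology Set
open scoped Nat

/-! ### base `b` expansions -/

/-- integer with base `b` digits `w 0, ..., w (m-1)` (most significant first) -/
def val (b : ℕ) : ℕ → (ℕ → ℕ) → ℕ
  | 0, _ => 0
  | (m + 1), w => b * val b m w + w m

lemma val_lt {b : ℕ} {w : ℕ → ℕ} : ∀ {m : ℕ}, (∀ j < m, w j < b) → val b m w < b ^ m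
  | 0, _ => by simp [val]
  | (m + 1), h => by
    have h1 := val_lt (m := m) (fun j hj => h j (by omega))
    have h2 := h m (by omega)
    simp only [val]
    have h3 : val b m w + 1 ≤ b ^ m := h1
    calc b * val b m w + w m < b * val b m w + b := by omega
      _ = b * (val b m w + 1) := by ring
      _ ≤ b * b ^ m := Nat.mul_le_mul_left _ h3
      _ = b ^ (m + 1) := by ring

lemma val_inj {b : ℕ} {w w' : ℕ → ℕ} : ∀ {m : ℕ}, (∀ j < m, w j < b) → (∀ j < m, w' j < b) →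
    val b m w = val b m w' → ∀ j < m, w j = w' j
  | 0, _, _, _ => by intro j hj; omega
  | (m + 1), h, h', he => by
    simp only [val] at he
    have h1 := h m (by omega)
    have h2 := h' m (by omega)
    have h3 : w m = w' m := by
      have := congrArg (· % b) he
      simpa [Nat.mul_add_mod, Nat.mod_eq_of_lt h1, Nat.mod_eq_of_lt h2] using this
    have hb : 0 < b := by omega
    have h4 : val b m w = val b m w' := by
      rw [h3] at he
      exact Nat.eq_of_mul_eq_mul_left hb (by omega)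
    intro j hj
    rcases Nat.lt_succ_iff_lt_or_eq.mp hj with hj | rfl
    · exact val_inj (fun j hj => h j (by omega)) (fun j hj => h' j (by omega)) h4 j hj
    · exact h3

lemma val_zero_tail {b : ℕ} {w : ℕ → ℕ} {m a : ℕ} (h : ∀ j, m ≤ j → w j = 0) :
    val b (m + a) w = b ^ a * val b m w := by
  induction a with
  | zero => simp
  | succ a ih =>
    rw [← add_assoc]
    simp only [val]
    rw [ih, h (m + a) (by omega)]
    ring

lemma sum_eq_val {b : ℕ} {r : ℝ} (hr : r * b = 1) (w : ℕ → ℕ) (m : ℕ) :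
    ∑ j ∈ Finset.range m, (w j : ℝ) * r ^ j = b * r ^ m * (val b m w : ℝ) := by
  induction m with
  | zero => simp [val]
  | succ m ih =>
    rw [Finset.sum_range_succ, ih]
    simp only [val]
    push_cast
    have h1 : (b : ℝ) * r ^ (m + 1) * (b * (val b m w : ℝ) + (w m : ℝ)) =
      (r * b) * (b * r ^ m * (val b m w : ℝ)) + (r * b) * ((w m : ℝ) * r ^ m) := by ring
    rw [h1, hr]; ring

/-! ### separation -/

lemma sep_int {b : ℝ} {z : ℤ} (hz : z ≠ 0) : 1 ≤ |(z : ℝ)| := by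
  have := Int.one_le_abs hz
  exact_mod_cast this

lemma sep_x1 {n a P : ℕ} {c0 r0 : ℝ} (hn : 1 ≤ n) (hc : cc = c0 + rN ^ n + r0)
    (hP : c0 * (NN : ℝ) ^ a = P) (hr0 : 0 ≤ r0) (hr : r0 ≤ 2 * rN ^ (3 * n))
    {U U' V V' V1 V1' : ℕ} (hV : V < NN ^ n) (hV' : V' < NN ^ n) (hV1 : V = NN ^ a * V1)
    (hV1' : V' = NN ^ a * V1') (hne : ¬ (U = U' ∧ V = V')) :
    (NN : ℝ) / 2 * rN ^ (2 * n) ≤
      |(NN : ℝ) * rN ^ n * (U + cc * V) - (NN : ℝ) * rN ^ n * (U' + cc * V')| := by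
  have hN := NNr_pos
  have hrn : 0 < rN ^ n := pow_pos rN_pos n
  have hNr : (NN : ℝ) ^ n * rN ^ n = 1 := by rw [← mul_pow, NN_mul_rN, one_pow]
  set Z : ℤ := ((U : ℤ) + P * V1 - (U' + P * V1')) * (NN : ℤ) ^ n + ((V : ℤ) - V') with hZ
  have hNa : (NN : ℤ) ^ a ≠ 0 := pow_ne_zero _ (by have := NN_pos; exact_mod_cast this.ne')
  have hZ0 : Z ≠ 0 := by
    intro h0
    apply hne
    have hVZ : ((V : ℤ) - V') = - (((U : ℤ) + P * V1 - (U' + P * V1')) * (NN : ℤ) ^ n) := by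
      rw [hZ] at h0; linarith
    have h1 : |((V : ℤ) - V')| < (NN : ℤ) ^ n := by
      rw [abs_lt]
      have a1 : (V : ℤ) < (NN : ℤ) ^ n := by exact_mod_cast hV
      have a2 : (V' : ℤ) < (NN : ℤ) ^ n := by exact_mod_cast hV'
      constructor <;> omega
    have h2 : (U : ℤ) + P * V1 - (U' + P * V1') = 0 := by
      by_contra hne0
      have h3 := Int.one_le_abs hne0
      rw [hVZ, abs_neg, abs_mul] at h1
      have h4 : |(NN : ℤ) ^ n| = (NN : ℤ) ^ n := abs_of_nonneg (by positivity)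
      rw [h4] at h1
      have h5 : (0 : ℤ) < (NN : ℤ) ^ n := by
        have := NN_pos
        positivity
      nlinarith
    have h6 : (V : ℤ) = V' := by
      rw [h2, zero_mul, neg_zero] at hVZ
      linarith
    have h7 : V = V' := by exact_mod_cast h6
    refine ⟨?_, h7⟩
    have h8 : (V1 : ℤ) = V1' := by
      have : (NN : ℤ) ^ a * V1 = (NN : ℤ) ^ a * V1' := by
        have := h7
        rw [hV1, hV1'] at this
        exact_mod_cast this
      exact mul_left_cancel₀ hNa this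
    rw [h8] at h2
    have h9 : (U : ℤ) = U' := by linarith
    exact_mod_cast h9
  have hZ1 : (1 : ℝ) ≤ |(Z : ℝ)| := sep_int (b := 0) hZ0
  have e1 : ∀ {V V1 : ℕ}, V = NN ^ a * V1 → c0 * (V : ℝ) = P * V1 := by
    intro V V1 h
    rw [h]; push_cast
    rw [← mul_assoc, hP]
  have key : (NN : ℝ) * rN ^ n * (U + cc * V) - (NN : ℝ) * rN ^ n * (U' + cc * V') =
      (NN : ℝ) * rN ^ n * (rN ^ n * Z + r0 * ((V : ℝ) - V')) := by
    have hZr : (Z : ℝ) = ((U : ℝ) + P * V1 - (U' + P * V1')) * (NN : ℝ) ^ n + ((V : ℝ) - V') := by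
      rw [hZ]; push_cast; ring
    have f1 : rN ^ n * (Z : ℝ) = ((U : ℝ) + P * V1 - (U' + P * V1')) + rN ^ n * ((V : ℝ) - V') := by
      rw [hZr, mul_add]
      congr 1
      rw [mul_comm, mul_assoc, hNr, mul_one]
    rw [f1, hc, ← e1 hV1, ← e1 hV1']
    ring
  rw [key, abs_mul, abs_of_pos (mul_pos hN hrn)]
  have hb1 : |r0 * ((V : ℝ) - V')| ≤ rN ^ n / 2 := by
    rw [abs_mul, abs_of_nonneg hr0]
    have g1 : |(V : ℝ) - V'| ≤ (NN : ℝ) ^ n := by
      rw [abs_le]
      have a1 : (V : ℝ) ≤ (NN : ℝ) ^ n := by exact_mod_cast hV.le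
      have a2 : (V' : ℝ) ≤ (NN : ℝ) ^ n := by exact_mod_cast hV'.le
      have a3 : (0 : ℝ) ≤ V := Nat.cast_nonneg _
      have a4 : (0 : ℝ) ≤ V' := Nat.cast_nonneg _
      constructor <;> linarith
    have g2 : r0 * |(V : ℝ) - V'| ≤ 2 * rN ^ (3 * n) * (NN : ℝ) ^ n :=
      mul_le_mul hr g1 (abs_nonneg _) (mul_nonneg two_pos.le (pow_nonneg rN_pos.le _))
    have g3 : 2 * rN ^ (3 * n) * (NN : ℝ) ^ n = 2 * (rN ^ n * rN ^ n) := by
      have : rN ^ (3 * n) = rN ^ n * rN ^ n * rN ^ n := by rw [← pow_add, ← pow_add]; congr 1; ring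
      rw [this]
      calc 2 * (rN ^ n * rN ^ n * rN ^ n) * (NN : ℝ) ^ n
          = 2 * (rN ^ n * rN ^ n) * ((NN : ℝ) ^ n * rN ^ n) := by ring
        _ = _ := by rw [hNr, mul_one]
    have g4 : rN ^ n ≤ 1 / 4 := by
      have : rN ^ n ≤ rN ^ 1 := pow_le_pow_of_le_one rN_pos.le rN_lt_one.le hn
      rw [pow_one] at this
      have h2 := rN_le
      linarith
    rw [g3] at g2
    nlinarith
  have hb2 : rN ^ n ≤ |rN ^ n * (Z : ℝ)| := by
    rw [abs_mul, abs_of_pos hrn]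
    nlinarith
  have hb3 : rN ^ n / 2 ≤ |rN ^ n * (Z : ℝ) + r0 * ((V : ℝ) - V')| := by
    have := abs_sub_abs_le_abs_add (rN ^ n * (Z : ℝ)) (r0 * ((V : ℝ) - V'))
    linarith
  have hsq : rN ^ (2 * n) = rN ^ n * rN ^ n := by rw [← pow_add]; congr 1; ring
  rw [hsq]
  calc (NN : ℝ) / 2 * (rN ^ n * rN ^ n) = (NN : ℝ) * rN ^ n * (rN ^ n / 2) := by ring
    _ ≤ _ := mul_le_mul_of_nonneg_left hb3 (mul_pos hN hrn).le

lemma sep_x2 {n : ℕ} {H H' : ℕ} (hne : H ≠ H') :
    (NN : ℝ) / 2 * rN ^ (2 * n) ≤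
      |rN ^ n * (NN * rN ^ n * (H : ℝ)) - rN ^ n * (NN * rN ^ n * (H' : ℝ))| := by
  have hN := NNr_pos
  have hrn : 0 < rN ^ n := pow_pos rN_pos n
  have h1 : rN ^ n * (NN * rN ^ n * (H : ℝ)) - rN ^ n * (NN * rN ^ n * (H' : ℝ)) =
      NN * rN ^ (2 * n) * (((H : ℤ) - H' : ℤ) : ℝ) := by
    push_cast
    have hsq : rN ^ (2 * n) = rN ^ n * rN ^ n := by rw [← pow_add]; congr 1; ring
    rw [hsq]; ring
  have h2 : ((H : ℤ) - H') ≠ 0 := by
    intro h; apply hne; have : (H : ℤ) = H' := by linarith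
    exact_mod_cast this
  have h3 : (1 : ℝ) ≤ |(((H : ℤ) - H' : ℤ) : ℝ)| := sep_int (b := 0) h2
  have h4 : 0 < (NN : ℝ) * rN ^ (2 * n) := mul_pos hN (pow_pos rN_pos _)
  rw [h1, abs_mul, abs_of_pos h4]
  nlinarith

lemma sep_x3 {n : ℕ} {H H' : ℕ} (hne : H ≠ H') :
    (NN : ℝ) / 2 * rN ^ (2 * n) ≤
      |((NN : ℝ) ^ 2) * rM ^ n * (H : ℝ) - ((NN : ℝ) ^ 2) * rM ^ n * (H' : ℝ)| := by
  have hN := NNr_pos
  have hN1 := NNr_ge
  have h1 : ((NN : ℝ) ^ 2) * rM ^ n * (H : ℝ) - ((NN : ℝ) ^ 2) * rM ^ n * (H' : ℝ) =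
      ((NN : ℝ) ^ 2) * rN ^ (2 * n) * (((H : ℤ) - H' : ℤ) : ℝ) := by
    push_cast
    rw [rM_eq, ← pow_mul]; ring
  have h2 : ((H : ℤ) - H') ≠ 0 := by
    intro h; apply hne; have : (H : ℤ) = H' := by linarith
    exact_mod_cast this
  have h3 : (1 : ℝ) ≤ |(((H : ℤ) - H' : ℤ) : ℝ)| := sep_int (b := 0) h2
  have h5 : 0 < rN ^ (2 * n) := pow_pos rN_pos _
  have h4 : 0 < (NN : ℝ) ^ 2 * rN ^ (2 * n) := mul_pos (pow_pos hN 2) h5
  rw [h1, abs_mul, abs_of_pos h4]
  have h6 : (NN : ℝ) / 2 * rN ^ (2 * n) ≤ (NN : ℝ) ^ 2 * rN ^ (2 * n) :=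
    mul_le_mul_of_nonneg_right (by nlinarith) h5.le
  nlinarith

/-! ### the codes -/

/-- prefix of length `l` taken from `p0`, followed by `r` -/
def app {α : Type*} (l : ℕ) (p0 r : ℕ → α) : ℕ → α := fun j => if j < l then p0 j else r (j - l)

lemma ser_app {r B : ℝ} (ph : Letter → ℝ) (hr0 : 0 ≤ r) (hr : r < 1) (hph : ∀ a, |ph a| ≤ B)
    (l : ℕ) (p0 s : ℕ → Letter) :
    ser r (fun k => ph (app l p0 s k)) =
      (∑ k ∈ Finset.range l, ph (p0 k) * r ^ k) + r ^ l * ser r (fun k => ph (s k)) := by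
  rw [ser_split hr0 hr (fun k => hph _) l]
  congr 1
  · refine Finset.sum_congr rfl fun k hk => ?_
    rw [Finset.mem_range] at hk
    simp [app, hk]
  · congr 2
    funext k
    simp [app]

lemma ser_zero (r : ℝ) {w : ℕ → ℝ} (h : ∀ k, w k = 0) : ser r w = 0 := by
  unfold ser
  simp [h]

/-- extension of a finite digit string by zero -/
def ext0 {m : ℕ} (w : Fin m → Fin NN) (j : ℕ) : ℕ := if h : j < m then (w ⟨j, h⟩ : ℕ) else 0

lemma ext0_lt {m : ℕ} (w : Fin m → Fin NN) (j : ℕ) : ext0 w j < NN := by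
  unfold ext0
  split_ifs with h
  · exact (w ⟨j, h⟩).2
  · exact NN_pos

lemma ext0_inj {m : ℕ} {w w' : Fin m → Fin NN} (h : ∀ j < m, ext0 w j = ext0 w' j) : w = w' := by
  funext ⟨j, hj⟩
  have := h j hj
  simp only [ext0, hj, dif_pos] at this
  exact Fin.ext this

lemma ext0_zero {m : ℕ} (w : Fin m → Fin NN) {j : ℕ} (h : m ≤ j) : ext0 w j = 0 := by
  unfold ext0
  rw [dif_neg (by omega)]

/-- digit data -/
abbrev Data (n a : ℕ) := (Fin n → Fin NN) × (Fin (n - a) → Fin NN) × (Fin n → Fin NN) ×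
  (Fin n → Fin NN)

lemma card_Data (n a : ℕ) : Fintype.card (Data n a) = NN ^ (3 * n + (n - a)) := by
  simp only [Data, Fintype.card_prod, Fintype.card_pi, Fintype.card_fin, Finset.prod_const,
    Finset.card_univ]
  ring

/-- the code of given digit data -/
def code {n a : ℕ} (d : Data n a) : ℕ → Letter := fun j =>
  if j < n then Sum.inl (⟨ext0 d.1 j, ext0_lt _ _⟩, ⟨ext0 d.2.1 j, ext0_lt _ _⟩,
    ⟨ext0 d.2.2.1 j, ext0_lt _ _⟩)
  else Sum.inr ⟨ext0 d.2.2.2 (j - n), ext0_lt _ _⟩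

lemma ser_xi_code {n a : ℕ} (d : Data n a) : ser rN (fun k => xi (code d k)) =
    NN * rN ^ n * ((val NN n (ext0 d.1) : ℝ) + cc * (val NN n (ext0 d.2.1) : ℝ)) := by
  rw [ser_split rN_pos.le rN_lt_one (fun k => abs_xi_le _) n, ser_zero, mul_zero, add_zero]
  · have h1 : ∀ k ∈ Finset.range n, xi (code d k) * rN ^ k =
        (ext0 d.1 k : ℝ) * rN ^ k + cc * ((ext0 d.2.1 k : ℝ) * rN ^ k) := by
      intro k hk
      rw [Finset.mem_range] at hk
      simp only [code, hk, if_true, xi]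
      ring
    rw [Finset.sum_congr rfl h1, Finset.sum_add_distrib, ← Finset.mul_sum,
      sum_eq_val rN_mul_NN, sum_eq_val rN_mul_NN]
    ring
  · intro k
    simp [code, xi]

lemma ser_et_code {n a : ℕ} (d : Data n a) : ser rN (fun k => et (code d k)) =
    rN ^ n * (NN * rN ^ n * (val NN n (ext0 d.2.2.2) : ℝ)) := by
  rw [ser_split rN_pos.le rN_lt_one (fun k => abs_et_le _) n]
  have h1 : ∀ k ∈ Finset.range n, et (code d k) * rN ^ k = 0 := by
    intro k hk
    rw [Finset.mem_range] at hk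
    simp [code, hk, et]
  rw [Finset.sum_congr rfl h1, Finset.sum_const_zero, zero_add]
  congr 1
  rw [ser_split (B := 2 * NN) rN_pos.le rN_lt_one (fun k => abs_et_le _) n, ser_zero, mul_zero,
    add_zero]
  · have h2 : ∀ k ∈ Finset.range n, et (code d (k + n)) * rN ^ k =
        (ext0 d.2.2.2 k : ℝ) * rN ^ k := by
      intro k _
      simp [code, et]
    rw [Finset.sum_congr rfl h2, sum_eq_val rN_mul_NN]
  · intro k
    have : ¬ (k + n + n < n) := by omega
    simp only [code, this, if_false, et]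
    rw [show k + n + n - n = k + n by omega, ext0_zero _ (by omega : n ≤ k + n)]
    simp

lemma ser_ze_code {n a : ℕ} (d : Data n a) : ser rM (fun k => ze (code d k)) =
    ((NN : ℝ) ^ 2) * rM ^ n * (val (NN ^ 2) n (ext0 d.2.2.1) : ℝ) := by
  rw [ser_split rM_pos.le rM_lt_one (fun k => abs_ze_le _) n, ser_zero, mul_zero, add_zero]
  · have h1 : ∀ k ∈ Finset.range n, ze (code d k) * rM ^ k = (ext0 d.2.2.1 k : ℝ) * rM ^ k := by
      intro k hk
      rw [Finset.mem_range] at hk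
      simp [code, hk, ze]
    rw [Finset.sum_congr rfl h1, sum_eq_val (b := NN ^ 2) (by push_cast; exact rM_mul_NN)]
    push_cast; ring
  · intro k
    simp [code, ze]

lemma pow_scale (l : ℕ) : 0 < rM ^ l := pow_pos rM_pos l

/-- separation of the points with different digit data -/
lemma sep_points {n a P : ℕ} {c0 r0 : ℝ} (hn : 1 ≤ n) (han : a ≤ n) (hc : cc = c0 + rN ^ n + r0)
    (hP : c0 * (NN : ℝ) ^ a = P) (hr0 : 0 ≤ r0) (hr : r0 ≤ 2 * rN ^ (3 * n))
    (l : ℕ) (p0 q0 : ℕ → Letter) (d d' : Data n a) (hne : d ≠ d') :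
    rM ^ l * rN ^ (2 * n) < dist (pt (app l p0 (code d)) q0) (pt (app l p0 (code d')) q0) := by
  have hN1 := NNr_ge
  have hx : 0 < rN ^ (2 * n) := pow_pos rN_pos _
  have hMl := pow_scale l
  have hrr : rM ^ l ≤ rN ^ l := pow_le_pow_left₀ rM_pos.le rM_le_rN l
  have hfin : rM ^ l * rN ^ (2 * n) < rM ^ l * ((NN : ℝ) / 2 * rN ^ (2 * n)) := by
    apply mul_lt_mul_of_pos_left _ hMl
    nlinarith
  by_cases h12 : d.1 = d'.1 ∧ d.2.1 = d'.2.1
  · by_cases h3 : d.2.2.1 = d'.2.2.1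
    · -- differ in `h`
      have h4 : d.2.2.2 ≠ d'.2.2.2 := by
        intro h4
        apply hne
        exact Prod.ext h12.1 (Prod.ext h12.2 (Prod.ext h3 h4))
      have h5 : val NN n (ext0 d.2.2.2) ≠ val NN n (ext0 d'.2.2.2) := fun h =>
        h4 (ext0_inj (val_inj (fun j _ => ext0_lt _ _) (fun j _ => ext0_lt _ _) h))
      refine lt_of_lt_of_le hfin (le_trans ?_ (abs_coord_le_dist _ _ 2))
      simp only [pt_2]
      rw [ser_app et rN_pos.le rN_lt_one abs_et_le, ser_app et rN_pos.le rN_lt_one abs_et_le,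
        add_sub_add_left_eq_sub, ← mul_sub, abs_mul, abs_of_nonneg (pow_nonneg rN_pos.le l),
        ser_et_code, ser_et_code]
      exact mul_le_mul hrr (sep_x2 h5) (by positivity) (pow_nonneg rN_pos.le l)
    · have h5 : val (NN ^ 2) n (ext0 d.2.2.1) ≠ val (NN ^ 2) n (ext0 d'.2.2.1) := by
        intro h
        have hlt : ∀ {m : ℕ} (w : Fin m → Fin NN) (j : ℕ), ext0 w j < NN ^ 2 := by
          intro m w j
          exact (ext0_lt w j).trans_le (Nat.le_self_pow (by norm_num) _)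
        exact h3 (ext0_inj (val_inj (fun j _ => hlt _ _) (fun j _ => hlt _ _) h))
      refine lt_of_lt_of_le hfin (le_trans ?_ (abs_coord_le_dist _ _ 3))
      simp only [pt_3]
      rw [ser_app ze rM_pos.le rM_lt_one abs_ze_le, ser_app ze rM_pos.le rM_lt_one abs_ze_le,
        add_sub_add_left_eq_sub, ← mul_sub, abs_mul, abs_of_nonneg (pow_nonneg rM_pos.le l),
        ser_ze_code, ser_ze_code]
      exact mul_le_mul_of_nonneg_left (sep_x3 h5) hMl.le
  · refine lt_of_lt_of_le hfin (le_trans ?_ (abs_coord_le_dist _ _ 1))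
    simp only [pt_1]
    rw [ser_app xi rN_pos.le rN_lt_one abs_xi_le, ser_app xi rN_pos.le rN_lt_one abs_xi_le,
      add_sub_add_left_eq_sub, ← mul_sub, abs_mul, abs_of_nonneg (pow_nonneg rN_pos.le l),
      ser_xi_code, ser_xi_code]
    refine mul_le_mul hrr ?_ (by positivity) (pow_nonneg rN_pos.le l)
    have hv : ∀ (w : Fin (n - a) → Fin NN), val NN n (ext0 w) = NN ^ a * val NN (n - a) (ext0 w) := by
      intro w
      have := val_zero_tail (b := NN) (w := ext0 w) (m := n - a) (a := a) (fun j hj => ext0_zero w hj)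
      rwa [Nat.sub_add_cancel han] at this
    refine sep_x1 hn hc hP hr0 hr (val_lt fun j _ => ext0_lt _ _) (val_lt fun j _ => ext0_lt _ _)
      (hv d.2.1) (hv d'.2.1) ?_
    rintro ⟨hU, hV⟩
    apply h12
    refine ⟨ext0_inj (val_inj (fun j _ => ext0_lt _ _) (fun j _ => ext0_lt _ _) hU), ?_⟩
    rw [hv, hv] at hV
    have hNa : 0 < NN ^ a := pow_pos NN_pos a
    exact ext0_inj (val_inj (fun j _ => ext0_lt _ _) (fun j _ => ext0_lt _ _)
      (Nat.eq_of_mul_eq_mul_left hNa hV))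

/-- lower bound for covering numbers -/
lemma coverNum_ge {Y : Set E5} (hY : Y ⊆ Lam) {l : ℕ} {p0 q0 : ℕ → Letter}
    (hl : ∀ s, pt (app l p0 s) q0 ∈ Y) {k : ℕ} (hk : 1 ≤ k) :
    NN ^ (3 * (k + 1)! + ((k + 1)! - k !)) ≤
      coverNum (rM ^ l * rN ^ (2 * (k + 1)!)) Y := by
  obtain ⟨P, hP⟩ := cp_rat k
  rw [← card_Data]
  have hn : 1 ≤ (k + 1)! := Nat.succ_le_of_lt (Nat.factorial_pos _)
  have ha : k ! ≤ (k + 1)! := Nat.factorial_le (by omega)
  have hc : cc = cp k + rN ^ ((k + 1)!) + cr (k + 1) := by rw [← cp_succ, ← cc_eq]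
  have hr : cr (k + 1) ≤ 2 * rN ^ (3 * (k + 1)!) := by
    refine (cr_le (k + 1)).trans ?_
    have h1 : 3 * (k + 1)! ≤ (k + 1 + 1)! := by
      rw [Nat.factorial_succ (k + 1)]
      exact Nat.mul_le_mul_right _ (by omega)
    have := pow_le_pow_of_le_one rN_pos.le rN_lt_one.le h1
    linarith
  exact le_coverNum isCompact_Lam hY (mul_pos (pow_scale l) (pow_pos rN_pos _))
    (fun d : Data ((k + 1)!) (k !) => pt (app l p0 (code d)) q0) (fun d => hl _)
    (fun d d' hne => sep_points hn ha hc hP (cr_pos _).le hr l p0 q0 d d' hne)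

lemma log_NN_pos : 0 < Real.log NN := Real.log_pos one_lt_NNr

lemma log_rN : Real.log rN = - Real.log NN := by unfold rN; rw [Real.log_inv]

lemma log_rM : Real.log rM = - (2 * Real.log NN) := by
  rw [rM_eq, Real.log_pow, log_rN]; push_cast; ring

lemma tendsto_fac : Tendsto (fun k : ℕ => (k + 1)!) atTop atTop :=
  tendsto_atTop_mono (fun k => (Nat.self_le_factorial (k + 1))) (tendsto_add_atTop_nat 1)

/-- upper box dimension -/
theorem upper_ge {Y : Set E5} (hY : Y ⊆ Lam) {l : ℕ} {p0 q0 : ℕ → Letter}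
    (hl : ∀ s, pt (app l p0 s) q0 ∈ Y) : ((1.99 : ℝ) : EReal) ≤ upperBoxDim Y := by
  refine le_upperBoxDim (δ := fun k => rM ^ l * rN ^ (2 * (k + 1)!)) (fun k =>
    mul_pos (pow_scale l) (pow_pos rN_pos _)) ?_ ?_
  · have h1 : Tendsto (fun k : ℕ => 2 * (k + 1)!) atTop atTop :=
      tendsto_atTop_mono (fun k => by omega) tendsto_fac
    have h2 := (tendsto_pow_atTop_nhds_zero_of_lt_one rN_pos.le rN_lt_one).comp h1
    simpa using h2.const_mul (rM ^ l)
  · filter_upwards [eventually_ge_atTop (200 + 400 * l)] with k hk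
    have hk1 : 1 ≤ k := by omega
    have h1 := coverNum_ge hY hl hk1
    have hL := log_NN_pos
    have hden : - Real.log (rM ^ l * rN ^ (2 * (k + 1)!)) =
        (2 * l + 2 * ((k + 1)! : ℕ)) * Real.log NN := by
      rw [Real.log_mul (pow_scale l).ne' (pow_pos rN_pos _).ne', Real.log_pow, Real.log_pow,
        log_rM, log_rN]
      push_cast; ring
    have hfac : ((k + 1)! : ℝ) = (k + 1) * (k ! : ℝ) := by
      rw [Nat.factorial_succ]; push_cast; ring
    have hk0 : (1 : ℝ) ≤ (k ! : ℝ) := by exact_mod_cast Nat.succ_le_of_lt (Nat.factorial_pos k)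
    have hkr : (200 + 400 * l : ℝ) ≤ k := by exact_mod_cast hk
    have hl0 : (0 : ℝ) ≤ l := Nat.cast_nonneg _
    have hden0 : 0 < (2 * (l : ℝ) + 2 * ((k + 1)! : ℕ)) * Real.log NN := by
      apply mul_pos _ hL
      rw [hfac]; nlinarith
    rw [hden, le_div_iff₀ hden0]
    have h2 : ((3 * (k + 1)! + ((k + 1)! - k !) : ℕ) : ℝ) * Real.log NN ≤
        Real.log (coverNum (rM ^ l * rN ^ (2 * (k + 1)!)) Y) := by
      rw [← Real.log_pow]
      apply Real.log_le_log (pow_pos NNr_pos _)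
      exact_mod_cast h1
    refine le_trans ?_ h2
    rw [← mul_assoc]
    apply mul_le_mul_of_nonneg_right _ hL.le
    have ha : k ! ≤ (k + 1)! := Nat.factorial_le (by omega)
    push_cast [Nat.cast_sub ha]
    rw [hfac]
    nlinarith [mul_nonneg hl0 (by linarith : (0 : ℝ) ≤ (k ! : ℝ) - 1)]

end Pool.Agent.MPe6529f
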