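import Mathlib
import Pool.Agent.Lib.MP_e6529f_an.Lower

/-!
# Upper bound for the covering numbers at the scales `NN ^ (-(k+1)!)`
-/

namespace Pool.Agent.MPe6529f

open Filter Topology Set
open scoped Nat

/-! ### digits -/

def ud : Letter → ℕ
  | Sum.inl (u, _, _) => u
  | Sum.inr _ => 0

def vd : Letter → ℕ
  | Sum.inl (_, v, _) => v
  | Sum.inr _ => 0

def uv : Letter → Fin NN × Fin NN
  | Sum.inl (u, v, _) => (u, v)
  | Sum.inr _ => (0, 0)

def hd : Letter → Fin NN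
  | Sum.inl _ => 0
  | Sum.inr h => h

def zd : Letter → Fin NN
  | Sum.inl (_, _, z) => z
  | Sum.inr _ => 0

/-- the first coordinate digit with `cc` replaced by `c0` -/
noncomputable def xi0 (c0 : ℝ) (a : Letter) : ℝ := (ud a : ℝ) + c0 * (vd a : ℝ)

lemma xi_eq (a : Letter) : xi a = xi0 cc a := by
  rcases a with ⟨u, v, z⟩ | h
  · simp [xi, xi0, ud, vd]
  · simp [xi, xi0, ud, vd]

lemma ud_lt (a : Letter) : ud a < NN := by
  rcases a with ⟨u, v, z⟩ | h
  · exact u.2
  · exact NN_pos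

lemma vd_lt (a : Letter) : vd a < NN := by
  rcases a with ⟨u, v, z⟩ | h
  · exact v.2
  · exact NN_pos

/-- sums of digits over a set of places -/
noncomputable def sumSet {ι : Type*} [Fintype ι] (W : Finset ℕ) (f : ι → ℝ) (r : ℝ) :
    Finset ℝ :=
  (Finset.univ : Finset (W → ι)).image (fun h => ∑ j : W, f (h j) * r ^ (j : ℕ))

lemma card_sumSet {ι : Type*} [Fintype ι] (W : Finset ℕ) (f : ι → ℝ) (r : ℝ) :
    (sumSet W f r).card ≤ Fintype.card ι ^ W.card := by
  unfold sumSet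
  refine Finset.card_image_le.trans ?_
  rw [Finset.card_univ, Fintype.card_fun, Fintype.card_coe]

lemma mem_sumSet {ι : Type*} [Fintype ι] (W : Finset ℕ) (f : ι → ℝ) (r : ℝ) (h : ℕ → ι) :
    ∑ j ∈ W, f (h j) * r ^ j ∈ sumSet W f r := by
  unfold sumSet
  rw [Finset.mem_image]
  exact ⟨fun j => h j, Finset.mem_univ _, Finset.sum_coe_sort W (fun j => f (h j) * r ^ j)⟩

/-- multiples of `rN ^ M` -/
noncomputable def grid (M : ℕ) : Finset ℝ :=
  (Finset.range (2 * NN ^ (M + 1) + 1)).image (fun t : ℕ => (t : ℝ) * rN ^ M)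

lemma card_grid (M : ℕ) : (grid M).card ≤ NN ^ (M + 2) := by
  unfold grid
  refine Finset.card_image_le.trans ?_
  rw [Finset.card_range]
  have h1 : NN ^ (M + 2) = NN * NN ^ (M + 1) := by ring
  have h2 : 1 ≤ NN ^ (M + 1) := Nat.one_le_pow _ _ NN_pos
  have h3 := NN_eq
  rw [h1]
  calc 2 * NN ^ (M + 1) + 1 ≤ 2 * NN ^ (M + 1) + NN ^ (M + 1) := by omega
    _ = 3 * NN ^ (M + 1) := by ring
    _ ≤ NN * NN ^ (M + 1) := Nat.mul_le_mul_right _ (by omega)

lemma mem_grid {a P : ℕ} {c0 : ℝ} (hP : c0 * (NN : ℝ) ^ a = P) (hc0 : 0 ≤ c0) (hc1 : c0 ≤ 1 / 4)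
    (p : ℕ → Letter) (m : ℕ) :
    ∑ j ∈ Finset.range m, xi0 c0 (p j) * rN ^ j ∈ grid (m + a) := by
  set U := val NN m (fun j => ud (p j)) with hU
  set V := val NN m (fun j => vd (p j)) with hV
  have h1 : ∑ j ∈ Finset.range m, xi0 c0 (p j) * rN ^ j = NN * rN ^ m * ((U : ℝ) + c0 * V) := by
    have e1 : ∀ j ∈ Finset.range m, xi0 c0 (p j) * rN ^ j =
        (ud (p j) : ℝ) * rN ^ j + c0 * ((vd (p j) : ℝ) * rN ^ j) := by
      intro j _; unfold xi0; ring
    rw [Finset.sum_congr rfl e1, Finset.sum_add_distrib, ← Finset.mul_sum,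
      sum_eq_val rN_mul_NN (fun j => ud (p j)), sum_eq_val rN_mul_NN (fun j => vd (p j))]
    ring
  have hNa : (NN : ℝ) ^ a * rN ^ a = 1 := by rw [← mul_pow, NN_mul_rN, one_pow]
  have h2 : NN * rN ^ m * ((U : ℝ) + c0 * V) =
      ((NN * (NN ^ a * U + P * V) : ℕ) : ℝ) * rN ^ (m + a) := by
    push_cast
    rw [← hP, pow_add]
    calc (NN : ℝ) * rN ^ m * (U + c0 * V) = (NN : ℝ) * rN ^ m * (U + c0 * V) * 1 := by ring
      _ = (NN : ℝ) * rN ^ m * (U + c0 * V) * ((NN : ℝ) ^ a * rN ^ a) := by rw [hNa]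
      _ = _ := by ring
  unfold grid
  rw [Finset.mem_image]
  refine ⟨NN * (NN ^ a * U + P * V), ?_, by rw [h1, h2]⟩
  rw [Finset.mem_range, Nat.lt_succ_iff]
  have hUlt : U < NN ^ m := val_lt fun j _ => ud_lt _
  have hVlt : V < NN ^ m := val_lt fun j _ => vd_lt _
  have hP' : (P : ℝ) ≤ (NN : ℝ) ^ a := by
    rw [← hP]
    have : 0 ≤ (NN : ℝ) ^ a := pow_nonneg NNr_pos.le _
    nlinarith
  have hP'' : P ≤ NN ^ a := by exact_mod_cast hP'
  calc NN * (NN ^ a * U + P * V) ≤ NN * (NN ^ a * NN ^ m + NN ^ a * NN ^ m) :=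
        Nat.mul_le_mul_left _ (Nat.add_le_add (Nat.mul_le_mul_left _ hUlt.le)
          (Nat.mul_le_mul hP'' hVlt.le))
    _ = 2 * NN ^ (m + a + 1) := by ring

/-! ### the set of approximate positions -/

noncomputable def isA (a : Letter) : Bool := a.isLeft

/-- places of the letters of first kind -/
noncomputable def SS (n : ℕ) (p : ℕ → Letter) : Finset ℕ :=
  (Finset.range (2 * n)).filter (fun j => isA (p j) = true)

lemma xi0_notA {c0 : ℝ} {a : Letter} (h : ¬ isA a = true) : xi0 c0 a = 0 := by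
  rcases a with a | h'
  · simp [isA] at h
  · simp [xi0, ud, vd]

lemma et_A {a : Letter} (h : isA a = true) : et a = 0 := by
  rcases a with a | h'
  · rfl
  · simp [isA] at h

lemma ze_notA {a : Letter} (h : ¬ isA a = true) : ze a = 0 := by
  rcases a with a | h'
  · simp [isA] at h
  · rfl

lemma ze_eq (a : Letter) : ze a = ((zd a : ℕ) : ℝ) := by
  rcases a with ⟨u, v, z⟩ | h
  · simp [ze, zd]
  · simp [ze, zd]

lemma et_eq (a : Letter) : et a = ((hd a : ℕ) : ℝ) := by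
  rcases a with ⟨u, v, z⟩ | h
  · simp [et, hd]
  · simp [et, hd]

lemma xi0_eq (c0 : ℝ) (a : Letter) :
    xi0 c0 a = (((uv a).1 : ℕ) : ℝ) + c0 * (((uv a).2 : ℕ) : ℝ) := by
  rcases a with ⟨u, v, z⟩ | h
  · simp [xi0, ud, vd, uv]
  · simp [xi0, ud, vd, uv]

noncomputable def X1 (c0 : ℝ) (n : ℕ) (p : ℕ → Letter) : ℝ :=
  ∑ j ∈ Finset.range (2 * n), xi0 c0 (p j) * rN ^ j
noncomputable def X2 (n : ℕ) (p : ℕ → Letter) : ℝ :=
  ∑ j ∈ Finset.range (2 * n), et (p j) * rN ^ j
noncomputable def X3 (n : ℕ) (p : ℕ → Letter) : ℝ :=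
  ∑ j ∈ Finset.range n, ze (p j) * rM ^ j

noncomputable def A1 (c0 : ℝ) (n a : ℕ) (S : Finset ℕ) : Finset ℝ :=
  if n + 2 * (S.filter (fun j => n ≤ j)).card ≤ 2 * n then
    ((grid (n + a)) ×ˢ (sumSet (S.filter (fun j => n ≤ j))
      (fun x : Fin NN × Fin NN => ((x.1 : ℕ) : ℝ) + c0 * ((x.2 : ℕ) : ℝ)) rN)).image
      (fun x => x.1 + x.2)
  else grid (2 * n + a)

noncomputable def A2 (n : ℕ) (S : Finset ℕ) : Finset ℝ :=
  sumSet ((Finset.range (2 * n)) \ S) (fun x : Fin NN => ((x : ℕ) : ℝ)) rN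

noncomputable def A3 (n : ℕ) (S : Finset ℕ) : Finset ℝ :=
  sumSet (S.filter (fun j => j < n)) (fun x : Fin NN => ((x : ℕ) : ℝ)) rM

lemma X1_mem {n a P : ℕ} {c0 : ℝ} (hP : c0 * (NN : ℝ) ^ a = P) (hc0 : 0 ≤ c0) (hc1 : c0 ≤ 1 / 4)
    (p : ℕ → Letter) : X1 c0 n p ∈ A1 c0 n a (SS n p) := by
  unfold A1
  split_ifs with h
  · rw [Finset.mem_image]
    refine ⟨(∑ j ∈ Finset.range n, xi0 c0 (p j) * rN ^ j,
      ∑ j ∈ (SS n p).filter (fun j => n ≤ j), xi0 c0 (p j) * rN ^ j), ?_, ?_⟩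
    · rw [Finset.mem_product]
      refine ⟨mem_grid hP hc0 hc1 p n, ?_⟩
      have h1 := mem_sumSet ((SS n p).filter (fun j => n ≤ j))
        (fun x : Fin NN × Fin NN => ((x.1 : ℕ) : ℝ) + c0 * ((x.2 : ℕ) : ℝ)) rN (fun j => uv (p j))
      have e0 : ∑ j ∈ (SS n p).filter (fun j => n ≤ j), xi0 c0 (p j) * rN ^ j =
          ∑ j ∈ (SS n p).filter (fun j => n ≤ j),
            ((((uv (p j)).1 : ℕ) : ℝ) + c0 * (((uv (p j)).2 : ℕ) : ℝ)) * rN ^ j :=
        Finset.sum_congr rfl fun j _ => by rw [xi0_eq]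
      show ∑ j ∈ (SS n p).filter (fun j => n ≤ j), xi0 c0 (p j) * rN ^ j ∈ _
      rw [e0]
      exact h1
    · unfold X1
      simp only
      rw [← Finset.sum_filter_add_sum_filter_not (Finset.range (2 * n)) (fun j => j < n)]
      congr 1
      · apply Finset.sum_congr _ fun _ _ => rfl
        ext j; simp only [Finset.mem_filter, Finset.mem_range]; omega
      · have e1 : (SS n p).filter (fun j => n ≤ j) ⊆
            (Finset.range (2 * n)).filter (fun j => ¬ j < n) := by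
          intro j hj
          simp only [SS, Finset.mem_filter, Finset.mem_range] at hj ⊢
          omega
        apply Finset.sum_subset e1
        intro j hj hj2
        have : ¬ isA (p j) = true := by
          intro hA
          apply hj2
          simp only [SS, Finset.mem_filter, Finset.mem_range] at hj ⊢
          exact ⟨⟨hj.1, hA⟩, by omega⟩
        rw [xi0_notA this, zero_mul]
  · exact mem_grid hP hc0 hc1 p (2 * n)

lemma X2_mem (n : ℕ) (p : ℕ → Letter) : X2 n p ∈ A2 n (SS n p) := by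
  unfold A2
  have h1 := mem_sumSet ((Finset.range (2 * n)) \ (SS n p))
    (fun x : Fin NN => ((x : ℕ) : ℝ)) rN (fun j => hd (p j))
  convert h1 using 1
  unfold X2
  symm
  have e2 : ∀ j ∈ (Finset.range (2 * n)) \ (SS n p), ((hd (p j) : ℕ) : ℝ) * rN ^ j =
      et (p j) * rN ^ j := fun j _ => by rw [et_eq]
  rw [Finset.sum_congr rfl e2]
  apply Finset.sum_subset Finset.sdiff_subset
  intro j hj hj2
  have : isA (p j) = true := by
    by_contra hA
    apply hj2
    simp only [SS, Finset.mem_sdiff, Finset.mem_filter, Finset.mem_range, not_and] at hj ⊢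
    exact ⟨hj, fun _ => hA⟩
  rw [et_A this, zero_mul]

lemma X3_mem (n : ℕ) (p : ℕ → Letter) : X3 n p ∈ A3 n (SS n p) := by
  unfold A3
  have h1 := mem_sumSet ((SS n p).filter (fun j => j < n))
    (fun x : Fin NN => ((x : ℕ) : ℝ)) rM (fun j => zd (p j))
  convert h1 using 1
  unfold X3
  symm
  have e2 : ∀ j ∈ (SS n p).filter (fun j => j < n), ((zd (p j) : ℕ) : ℝ) * rM ^ j =
      ze (p j) * rM ^ j := fun j _ => by rw [ze_eq]
  rw [Finset.sum_congr rfl e2]
  apply Finset.sum_subset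
  · intro j hj
    simp only [SS, Finset.mem_filter, Finset.mem_range] at hj ⊢
    exact hj.2
  · intro j hj hj2
    have : ¬ isA (p j) = true := by
      intro hA
      apply hj2
      simp only [SS, Finset.mem_filter, Finset.mem_range] at hj ⊢
      exact ⟨⟨by omega, hA⟩, hj⟩
    rw [ze_notA this, zero_mul]

/-- all approximate positions -/
noncomputable def FF (c0 : ℝ) (n a : ℕ) : Finset (ℝ × ℝ × ℝ) :=
  (Finset.range (2 * n)).powerset.biUnion (fun S => A1 c0 n a S ×ˢ (A2 n S ×ˢ A3 n S))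

lemma card_A1 (c0 : ℝ) (n a : ℕ) (S : Finset ℕ) : (A1 c0 n a S).card ≤
    NN ^ (min (n + 2 * (S.filter (fun j => n ≤ j)).card) (2 * n) + a + 2) := by
  unfold A1
  split_ifs with h
  · refine Finset.card_image_le.trans ?_
    rw [Finset.card_product, min_eq_left h]
    have h1 := card_grid (n + a)
    have h2 := card_sumSet (S.filter (fun j => n ≤ j))
      (fun x : Fin NN × Fin NN => ((x.1 : ℕ) : ℝ) + c0 * ((x.2 : ℕ) : ℝ)) rN
    rw [Fintype.card_prod, Fintype.card_fin] at h2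
    refine (Nat.mul_le_mul h1 h2).trans (le_of_eq ?_)
    rw [← sq, ← pow_mul, ← pow_add]
    congr 1; ring
  · rw [min_eq_right (by omega)]
    exact card_grid _

lemma card_FF (c0 : ℝ) (n a : ℕ) : (FF c0 n a).card ≤ 2 ^ (2 * n) * NN ^ (7 * n / 2 + a + 2) := by
  unfold FF
  refine Finset.card_biUnion_le.trans ?_
  have h1 : ∀ S ∈ (Finset.range (2 * n)).powerset,
      (A1 c0 n a S ×ˢ (A2 n S ×ˢ A3 n S)).card ≤ NN ^ (7 * n / 2 + a + 2) := by
    intro S hS
    rw [Finset.mem_powerset] at hS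
    rw [Finset.card_product, Finset.card_product]
    have h1 := card_A1 c0 n a S
    have h2 : (A2 n S).card ≤ NN ^ ((Finset.range (2 * n)) \ S).card := by
      have := card_sumSet ((Finset.range (2 * n)) \ S) (fun x : Fin NN => ((x : ℕ) : ℝ)) rN
      rwa [Fintype.card_fin] at this
    have h3 : (A3 n S).card ≤ NN ^ (S.filter (fun j => j < n)).card := by
      have := card_sumSet (S.filter (fun j => j < n)) (fun x : Fin NN => ((x : ℕ) : ℝ)) rM
      rwa [Fintype.card_fin] at this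
    have h4 : ((Finset.range (2 * n)) \ S).card = 2 * n - S.card := by
      rw [Finset.card_sdiff_of_subset hS, Finset.card_range]
    have h5 : (S.filter (fun j => j < n)).card + (S.filter (fun j => n ≤ j)).card = S.card := by
      have := Finset.card_filter_add_card_filter_not (s := S) (fun j => j < n)
      simpa [not_lt] using this
    have h6 : S.card ≤ 2 * n := by
      have := Finset.card_le_card hS
      rwa [Finset.card_range] at this
    rw [h4] at h2
    refine (Nat.mul_le_mul h1 (Nat.mul_le_mul h2 h3)).trans ?_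
    rw [← pow_add, ← pow_add]
    apply Nat.pow_le_pow_right NN_pos
    omega
  refine (Finset.sum_le_card_nsmul _ _ _ h1).trans ?_
  rw [Finset.card_powerset, Finset.card_range, smul_eq_mul]

lemma mem_FF {n a P : ℕ} {c0 : ℝ} (hP : c0 * (NN : ℝ) ^ a = P) (hc0 : 0 ≤ c0) (hc1 : c0 ≤ 1 / 4)
    (p : ℕ → Letter) : (X1 c0 n p, X2 n p, X3 n p) ∈ FF c0 n a := by
  unfold FF
  rw [Finset.mem_biUnion]
  refine ⟨SS n p, ?_, ?_⟩
  · rw [Finset.mem_powerset]
    exact Finset.filter_subset _ _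
  · rw [Finset.mem_product, Finset.mem_product]
    exact ⟨X1_mem hP hc0 hc1 p, X2_mem n p, X3_mem n p⟩

/-! ### closeness -/

lemma geom_le (m : ℕ) : ∑ j ∈ Finset.range m, rN ^ j ≤ 2 := by
  have h := (summable_geometric_of_lt_one rN_pos.le rN_lt_one).sum_le_tsum (Finset.range m)
    (fun j _ => pow_nonneg rN_pos.le j)
  rw [tsum_geometric_of_lt_one rN_pos.le rN_lt_one] at h
  refine h.trans ?_
  rw [inv_le_comm₀ (by have := rN_lt_one; linarith) (by norm_num)]
  have := rN_half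
  linarith

lemma close_X1 {n : ℕ} {c0 r0 : ℝ} (hc : cc = c0 + r0) (hr0 : 0 ≤ r0)
    (hr : r0 ≤ 2 * rN ^ (2 * n)) (p : ℕ → Letter) :
    |ser rN (fun k => xi (p k)) - X1 c0 n p| ≤ 8 * NN * rN ^ (2 * n) := by
  have h1 := abs_ser_sub_le rN_pos.le rN_half (fun k => abs_xi_le (p k)) (2 * n)
  have h2 : |(∑ j ∈ Finset.range (2 * n), xi (p j) * rN ^ j) - X1 c0 n p| ≤
      4 * NN * rN ^ (2 * n) := by
    have e1 : (∑ j ∈ Finset.range (2 * n), xi (p j) * rN ^ j) - X1 c0 n p =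
        r0 * ∑ j ∈ Finset.range (2 * n), (vd (p j) : ℝ) * rN ^ j := by
      unfold X1
      rw [← Finset.sum_sub_distrib, Finset.mul_sum]
      refine Finset.sum_congr rfl fun j _ => ?_
      rw [xi_eq, xi0, xi0, hc]; ring
    have e2 : ∑ j ∈ Finset.range (2 * n), (vd (p j) : ℝ) * rN ^ j ≤ 2 * NN := by
      calc ∑ j ∈ Finset.range (2 * n), (vd (p j) : ℝ) * rN ^ j
          ≤ ∑ j ∈ Finset.range (2 * n), (NN : ℝ) * rN ^ j := by
            refine Finset.sum_le_sum fun j _ => ?_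
            refine mul_le_mul_of_nonneg_right ?_ (pow_nonneg rN_pos.le j)
            exact_mod_cast (vd_lt _).le
        _ = NN * ∑ j ∈ Finset.range (2 * n), rN ^ j := by rw [Finset.mul_sum]
        _ ≤ NN * 2 := mul_le_mul_of_nonneg_left (geom_le _) NNr_pos.le
        _ = 2 * NN := by ring
    have e3 : 0 ≤ ∑ j ∈ Finset.range (2 * n), (vd (p j) : ℝ) * rN ^ j :=
      Finset.sum_nonneg fun j _ => mul_nonneg (Nat.cast_nonneg _) (pow_nonneg rN_pos.le j)
    rw [e1, abs_of_nonneg (mul_nonneg hr0 e3)]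
    have hx : 0 < rN ^ (2 * n) := pow_pos rN_pos _
    calc r0 * ∑ j ∈ Finset.range (2 * n), (vd (p j) : ℝ) * rN ^ j
        ≤ (2 * rN ^ (2 * n)) * (2 * NN) := mul_le_mul hr e2 e3 (by positivity)
      _ = 4 * NN * rN ^ (2 * n) := by ring
  rw [abs_le] at *
  constructor <;> nlinarith [h1.1, h1.2, h2.1, h2.2]

lemma close_X2 (n : ℕ) (p : ℕ → Letter) :
    |ser rN (fun k => et (p k)) - X2 n p| ≤ 8 * NN * rN ^ (2 * n) := by
  have h1 := abs_ser_sub_le rN_pos.le rN_half (fun k => abs_et_le (p k)) (2 * n)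
  refine h1.trans ?_
  have hx : 0 < rN ^ (2 * n) := pow_pos rN_pos _
  apply mul_le_mul_of_nonneg_right _ hx.le
  have := NNr_pos
  linarith

lemma close_X3 (n : ℕ) (p : ℕ → Letter) :
    |ser rM (fun k => ze (p k)) - X3 n p| ≤ 8 * NN * rN ^ (2 * n) := by
  have h1 := abs_ser_sub_le rM_pos.le rM_half (fun k => abs_ze_le (p k)) n
  rw [rM_eq, ← pow_mul] at h1
  rw [rM_eq]
  unfold X3
  rw [rM_eq]
  refine h1.trans ?_
  have hx : 0 < rN ^ (2 * n) := pow_pos rN_pos _
  apply mul_le_mul_of_nonneg_right _ hx.le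
  have := NNr_pos
  linarith

lemma rG_pow_g (n : ℕ) : rG ^ (2 * n / 100 + 1) ≤ rN ^ (2 * n) := by
  have h1 : rG = rN ^ 100 := by unfold rG rN Gam; rw [inv_pow]
  rw [h1, ← pow_mul]
  apply pow_le_pow_of_le_one rN_pos.le rN_lt_one.le
  omega

/-- upper bound for the covering number of `Lam` -/
lemma coverNum_le_of {Y : Set E5} (hY : Y ⊆ Lam) {n a P : ℕ} {c0 r0 : ℝ}
    (hP : c0 * (NN : ℝ) ^ a = P) (hc0 : 0 ≤ c0) (hc1 : c0 ≤ 1 / 4) (hc : cc = c0 + r0)
    (hr0 : 0 ≤ r0) (hr : r0 ≤ 2 * rN ^ (2 * n)) :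
    coverNum (48 * (NN : ℝ) ^ 4 * rN ^ (2 * n)) Y ≤
      2 ^ (2 * n) * NN ^ (7 * n / 2 + a + 2) * (NN ^ 4) ^ (2 * (2 * n / 100 + 1)) := by
  set g := 2 * n / 100 + 1 with hg
  have hcard : Fintype.card ((FF c0 n a) × (Fin g → Letter) × (Fin g → Letter)) ≤
      2 ^ (2 * n) * NN ^ (7 * n / 2 + a + 2) * (NN ^ 4) ^ (2 * g) := by
    rw [Fintype.card_prod, Fintype.card_prod, Fintype.card_fun, Fintype.card_fin,
      Fintype.card_coe]
    have h1 := card_FF c0 n a
    have h2 : Fintype.card Letter ^ g * Fintype.card Letter ^ g ≤ (NN ^ 4) ^ (2 * g) := by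
      rw [← pow_add, ← two_mul]
      exact Nat.pow_le_pow_left card_letter_le _
    exact Nat.mul_le_mul h1 h2
  refine le_trans ?_ hcard
  refine coverNum_le (fun x : (FF c0 n a) × (Fin g → Letter) × (Fin g → Letter) =>
    {P : E5 | ∃ p q : ℕ → Letter, P = pt p q ∧ (X1 c0 n p, X2 n p, X3 n p) = (x.1 : ℝ × ℝ × ℝ) ∧
      (∀ j : Fin g, p j = x.2.1 j) ∧ (∀ j : Fin g, q j = x.2.2 j)}) ?_ ?_
  · rintro x _ ⟨p, q, rfl, hx, hp, hq⟩ _ ⟨p', q', rfl, hx', hp', hq'⟩
    have hN := NNr_pos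
    have hN4 := NN4_ge
    have hxx : 0 < rN ^ (2 * n) := pow_pos rN_pos _
    have hX := hx.trans hx'.symm
    simp only [Prod.mk.injEq] at hX
    obtain ⟨e1, e2, e3⟩ := hX
    have hpp : ∀ k < g, p k = p' k := fun k hk => by
      have := hp ⟨k, hk⟩; have h2 := hp' ⟨k, hk⟩; simp only at this h2; rw [this, h2]
    have hqq : ∀ k < g, q k = q' k := fun k hk => by
      have := hq ⟨k, hk⟩; have h2 := hq' ⟨k, hk⟩; simp only at this h2; rw [this, h2]
    have hgg := rG_pow_g n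
    rw [← hg] at hgg
    have key : ∀ i, |pt p q i - pt p' q' i| ≤ 16 * (NN : ℝ) ^ 4 * rN ^ (2 * n) := by
      intro i
      fin_cases i
      · show |pt p q 0 - pt p' q' 0| ≤ _
        simp only [pt_0]
        refine (abs_ser_sub_ser_le rG_pos.le rG_half (fun k => abs_ee_le _)
          (fun k => abs_ee_le _) g (fun k hk => by rw [hqq k hk])).trans ?_
        nlinarith [pow_nonneg NNr_pos.le 4, pow_nonneg rG_pos.le g]
      · show |pt p q 1 - pt p' q' 1| ≤ _
        simp only [pt_1]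
        have h1 := close_X1 hc hr0 hr p
        have h2 := close_X1 hc hr0 hr p'
        rw [e1] at h1
        rw [abs_le] at *
        constructor <;> nlinarith [h1.1, h1.2, h2.1, h2.2]
      · show |pt p q 2 - pt p' q' 2| ≤ _
        simp only [pt_2]
        have h1 := close_X2 n p
        have h2 := close_X2 n p'
        rw [e2] at h1
        rw [abs_le] at *
        constructor <;> nlinarith [h1.1, h1.2, h2.1, h2.2]
      · show |pt p q 3 - pt p' q' 3| ≤ _
        simp only [pt_3]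
        have h1 := close_X3 n p
        have h2 := close_X3 n p'
        rw [e3] at h1
        rw [abs_le] at *
        constructor <;> nlinarith [h1.1, h1.2, h2.1, h2.2]
      · show |pt p q 4 - pt p' q' 4| ≤ _
        simp only [pt_4]
        refine (abs_ser_sub_ser_le rG_pos.le rG_half (fun k => abs_ee_le _)
          (fun k => abs_ee_le _) g (fun k hk => by rw [hpp k hk])).trans ?_
        nlinarith [pow_nonneg NNr_pos.le 4, pow_nonneg rG_pos.le g]
    refine (dist_le_of_coord (by positivity) key).trans (le_of_eq (by ring))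
  · intro x hx
    obtain ⟨⟨p, q⟩, rfl⟩ := hY hx
    rw [Set.mem_iUnion]
    exact ⟨(⟨_, mem_FF hP hc0 hc1 p⟩, fun j => p j, fun j => q j), p, q, rfl, rfl,
      fun _ => rfl, fun _ => rfl⟩

lemma log_two : Real.log 2 = Real.log NN / 10 := by
  have h : ((NN : ℕ) : ℝ) = 2 ^ 10 := by rw [NN_eq]; norm_num
  rw [h, Real.log_pow]; push_cast; ring

lemma even_fac {k : ℕ} (hk : 1 ≤ k) : 2 * ((k + 1)! / 2) = (k + 1)! := by
  have h : 2 ∣ (k + 1)! := Nat.dvd_factorial (by norm_num) (by omega)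
  exact Nat.mul_div_cancel' h

/-- lower box dimension -/
theorem lower_le {Y : Set E5} (hY : Y ⊆ Lam) {l : ℕ} {p0 q0 : ℕ → Letter}
    (hl : ∀ s, pt (app l p0 s) q0 ∈ Y) : lowerBoxDim Y ≤ ((1.95 : ℝ) : EReal) := by
  have hN := NNr_pos
  refine lowerBoxDim_le (δ := fun k => 48 * (NN : ℝ) ^ 4 * rN ^ (2 * ((k + 1)! / 2))) (fun k =>
    mul_pos (by positivity) (pow_pos rN_pos _)) ?_ ?_
  · have h1 : Tendsto (fun k : ℕ => 2 * ((k + 1)! / 2)) atTop atTop := by
      refine tendsto_atTop_mono (f := fun k : ℕ => k) (fun k => ?_) tendsto_id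
      have := Nat.self_le_factorial (k + 1)
      omega
    have h2 := (tendsto_pow_atTop_nhds_zero_of_lt_one rN_pos.le rN_lt_one).comp h1
    simpa using h2.const_mul (48 * (NN : ℝ) ^ 4)
  · filter_upwards [eventually_ge_atTop 2000] with k hk
    have hk1 : 1 ≤ k := by omega
    obtain ⟨P, hP⟩ := cp_rat k
    set n := (k + 1)! / 2 with hn
    have h2n : 2 * n = (k + 1)! := even_fac hk1
    have hr : cr k ≤ 2 * rN ^ (2 * n) := by rw [h2n]; exact cr_le k
    have h1 := coverNum_le_of hY hP (cp_nonneg k) (cp_le k) (cc_eq k) (cr_pos k).le hr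
    have hL := log_NN_pos
    have hfac : 2 * (n : ℝ) = (k + 1) * (k ! : ℝ) := by
      have : ((2 * n : ℕ) : ℝ) = (((k + 1)! : ℕ) : ℝ) := by rw [h2n]
      rw [Nat.factorial_succ] at this
      push_cast at this
      linarith
    have hk0 : (1 : ℝ) ≤ (k ! : ℝ) := by exact_mod_cast Nat.succ_le_of_lt (Nat.factorial_pos k)
    have hkr : (2000 : ℝ) ≤ k := by exact_mod_cast hk
    have hden : (2 * (n : ℝ) - 5) * Real.log NN ≤
        - Real.log (48 * (NN : ℝ) ^ 4 * rN ^ (2 * n)) := by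
      rw [Real.log_mul (by positivity) (pow_pos rN_pos _).ne', Real.log_mul (by norm_num)
        (by positivity), Real.log_pow, Real.log_pow, log_rN]
      have h48 : Real.log 48 ≤ Real.log NN :=
        Real.log_le_log (by norm_num) (by have := NNr_ge; linarith)
      push_cast
      nlinarith
    have hn5 : 0 < (2 * (n : ℝ) - 5) * Real.log NN := by
      apply mul_pos _ hL
      nlinarith
    have hden0 : 0 < - Real.log (48 * (NN : ℝ) ^ 4 * rN ^ (2 * n)) := lt_of_lt_of_le hn5 hden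
    rw [div_le_iff₀ hden0]
    refine le_trans ?_ (mul_le_mul_of_nonneg_left hden (by norm_num))
    have hpos : 1 ≤ coverNum (48 * (NN : ℝ) ^ 4 * rN ^ (2 * n)) Y := by
      have := le_coverNum (ι := Unit) isCompact_Lam hY
        (δ := 48 * (NN : ℝ) ^ 4 * rN ^ (2 * n)) (mul_pos (by positivity) (pow_pos rN_pos _))
        (fun _ => pt (app l p0 p0) q0) (fun _ => hl _) (fun i j h => absurd rfl h)
      simpa using this
    have h2 : Real.log (coverNum (48 * (NN : ℝ) ^ 4 * rN ^ (2 * n)) Y) ≤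
        Real.log ((2 : ℝ) ^ (2 * n) * (NN : ℝ) ^ (7 * n / 2 + k ! + 2) *
          ((NN : ℝ) ^ 4) ^ (2 * (2 * n / 100 + 1))) := by
      apply Real.log_le_log
      · exact_mod_cast hpos
      · exact_mod_cast h1
    refine h2.trans ?_
    rw [Real.log_mul (by positivity) (by positivity), Real.log_mul (by positivity) (by positivity),
      Real.log_pow, Real.log_pow, Real.log_pow, Real.log_pow, log_two]
    have hd1 : ((7 * n / 2 + k ! + 2 : ℕ) : ℝ) ≤ 7 * n / 2 + (k ! : ℝ) + 2 := by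
      push_cast
      have : ((7 * n / 2 : ℕ) : ℝ) ≤ ((7 * n : ℕ) : ℝ) / 2 := Nat.cast_div_le
      push_cast at this
      linarith
    have hd2 : ((2 * (2 * n / 100 + 1) : ℕ) : ℝ) ≤ 2 * (2 * n / 100 + 1) := by
      push_cast
      have : ((2 * n / 100 : ℕ) : ℝ) ≤ ((2 * n : ℕ) : ℝ) / 100 := Nat.cast_div_le
      push_cast at this
      linarith
    have hkey : (2 * (n : ℝ)) / 10 + (7 * n / 2 + (k ! : ℝ) + 2) + 4 * (2 * (2 * n / 100 + 1)) ≤
        1.95 * (2 * n - 5) := by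
      nlinarith
    calc ((2 * n : ℕ) : ℝ) * (Real.log NN / 10) + ((7 * n / 2 + k ! + 2 : ℕ) : ℝ) * Real.log NN +
          ((2 * (2 * n / 100 + 1) : ℕ) : ℝ) * (((4 : ℕ) : ℝ) * Real.log NN)
        ≤ (2 * n) * (Real.log NN / 10) + (7 * n / 2 + (k ! : ℝ) + 2) * Real.log NN +
          (2 * (2 * n / 100 + 1)) * (4 * Real.log NN) := by
          push_cast at hd1 hd2 ⊢
          have g1 := mul_le_mul_of_nonneg_right hd1 hL.le
          have g2 := mul_le_mul_of_nonneg_right hd2 (by positivity : 0 ≤ 4 * Real.log NN)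
          linarith
      _ = ((2 * (n : ℝ)) / 10 + (7 * n / 2 + (k ! : ℝ) + 2) + 4 * (2 * (2 * n / 100 + 1))) *
          Real.log NN := by ring
      _ ≤ 1.95 * (2 * n - 5) * Real.log NN := mul_le_mul_of_nonneg_right hkey hL.le
      _ = 1.95 * ((2 * (n : ℝ) - 5) * Real.log NN) := by ring

end Pool.Agent.MPe6529f
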