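import Mathlib
import Pool.Agent.Lib.MP_e6529f_an.Basic
import Pool.Agent.Lib.MP_e6529f_an.Upper

/-!
# Final statements
-/

namespace Pool.Agent.MPe6529f

open Filter Topology Set

lemma ereal_lt : ((1.95 : ℝ) : EReal) < ((1.99 : ℝ) : EReal) := by
  rw [EReal.coe_lt_coe_iff]; norm_num

lemma app_zero {α : Type*} (p0 s : ℕ → α) : app 0 p0 s = s := by
  funext j; simp [app]

/-- dimension gap for all subsets of `Lam` containing a stable cylinder -/
theorem gap {Y : Set E5} (hY : Y ⊆ Lam) {l : ℕ} {p0 q0 : ℕ → Letter}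
    (hl : ∀ s, pt (app l p0 s) q0 ∈ Y) : lowerBoxDim Y < upperBoxDim Y :=
  (lower_le hY hl).trans_lt (ereal_lt.trans_le (upper_ge hY hl))

theorem gap_Lam : lowerBoxDim Lam < upperBoxDim Lam :=
  gap (l := 0) (p0 := fun _ => Sum.inr 0) (q0 := fun _ => Sum.inr 0) Set.Subset.rfl
    (fun s => pt_mem _ _)

theorem gap_slice {x : E5} (hx : x ∈ Lam) {ε : ℝ} (hε : 0 < ε) :
    lowerBoxDim (Lam ∩ localStable ff ε x) < upperBoxDim (Lam ∩ localStable ff ε x) := by
  obtain ⟨⟨p, q⟩, rfl⟩ := hx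
  obtain ⟨l, hl⟩ := (tendsto_bound.eventually_lt_const hε).exists
  refine gap (l := l) (p0 := p) (q0 := q) Set.inter_subset_left (fun s => ⟨pt_mem _ _, ?_⟩)
  have hd : ∀ n : ℕ, dist (ff^[n] (pt p q)) (ff^[n] (pt (app l p s) q)) ≤
      12 * (NN : ℝ) ^ 4 * rN ^ (n + l) := by
    intro n
    have e1 : ff^[n] (pt p q) = pt (past n p q) (futr n q) := fwd_iter_pt n p q
    have e2 : ff^[n] (pt (app l p s) q) = pt (past n (app l p s) q) (futr n q) :=
      fwd_iter_pt n _ q
    rw [e1, e2]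
    refine dist_pt_le (fun k hk => ?_) (fun k _ => rfl)
    simp only [past]
    split_ifs with h
    · rfl
    · simp only [app]
      rw [if_pos (by omega)]
  constructor
  · intro n
    refine (hd n).trans (le_trans ?_ hl.le)
    apply mul_le_mul_of_nonneg_left _ (by positivity)
    exact pow_le_pow_of_le_one rN_pos.le rN_lt_one.le (by omega)
  · refine squeeze_zero (fun n => dist_nonneg) hd ?_
    exact tendsto_bound.comp (tendsto_add_atTop_nat l)

end Pool.Agent.MPe6529f
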